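import Mathlib

/-! # The algebraic lemmas behind the conic family (characteristic two) -/

namespace Pool.Agent.Lib_MP_e76747

section conic

variable {E : Type*} [Field E] [CharP E 2]

lemma G11 (σ : E →+* E) {ε g y1 y2 : E} (hg : σ g = g) (hg0 : g ≠ 0)
    (hε : ε * σ ε = 1) (hε1 : 1 + ε ≠ 0) (h1 : y1 * σ y1 = 1) (h3 : y2 * σ y2 = 1)
    (h : y1 + y2 = g * (1 + ε * (y1 * y2))) : y1 = y2 := by
  have hs := congrArg σ h
  simp only [map_add, map_mul, map_one, hg] at hs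
  have e1 : y1 + y2 = g * (y1 * y2 + σ ε) := by
    have e0 : y1 * σ y1 * (y2 * σ y2) = 1 := by rw [h1, h3, one_mul]
    linear_combination (norm := (ring_nf; try reduce_mod_char!)) (y1 * y2) * hs
      - y2 * h1 - y1 * h3 + g * σ ε * e0
  have e2 : g * ((1 + ε) * (y1 * y2 + σ ε)) = 0 := by
    linear_combination (norm := (ring_nf; try reduce_mod_char!)) e1 + h + g * hε
  have e3 : y1 * y2 + σ ε = 0 := by
    rcases mul_eq_zero.mp e2 with e | e
    · exact absurd e hg0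
    · rcases mul_eq_zero.mp e with e | e
      · exact absurd e hε1
      · exact e
  rw [e3, mul_zero] at e1
  exact CharTwo.add_eq_zero.mp e1

lemma G22 (σ : E →+* E) {ε g y1 y2 τ ν x w0 : E} (hg : σ g = g) (hg0 : g ≠ 0)
    (hε : ε * σ ε = 1) (hτ : ε + σ ε = τ) (hν : σ ν = ν) (hν0 : ν ≠ 0) (hν1 : 1 + ν ≠ 0)
    (hx : x * (1 + ν) ^ 2 = ν) (hw0 : σ w0 = w0) (h0 : (w0 ^ 2 + w0) * g ^ 2 = x + τ * x ^ 2)
    (h1 : y1 * σ y1 = ν) (h3 : y2 * σ y2 = ν)
    (h : y1 + y2 = g * (1 + ε * (y1 * y2))) : False := by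
  have hs := congrArg σ h
  simp only [map_add, map_mul, map_one, hg] at hs
  have e1 : ν * (y1 + y2) = g * (y1 * y2 + σ ε * ν ^ 2) := by
    have e0 : y1 * σ y1 * (y2 * σ y2) = ν ^ 2 := by rw [h1, h3, sq]
    linear_combination (norm := (ring_nf; try reduce_mod_char!)) (y1 * y2) * hs
      - y2 * h1 - y1 * h3 + g * σ ε * e0
  have e2 : y1 * y2 * (1 + ν * ε) = ν * (1 + ν * σ ε) := by
    apply mul_left_cancel₀ hg0
    linear_combination (norm := (ring_nf; try reduce_mod_char!)) e1 + ν * h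
  have e3 : (y1 + y2) * (1 + ν * ε) = g * (1 + ν ^ 2) := by
    linear_combination (norm := (ring_nf; try reduce_mod_char!)) (1 + ν * ε) * h
      + g * ε * e2 + g * ν ^ 2 * hε
  have hne : 1 + ν * ε ≠ 0 := by
    intro h5
    have h6 : ν * ε = 1 := by
      linear_combination (norm := (ring_nf; try reduce_mod_char!)) h5
    have h7 := congrArg σ h6
    simp only [map_mul, map_one, hν] at h7
    have h8 : (1 + ν) ^ 2 = 0 := by
      linear_combination (norm := (ring_nf; try reduce_mod_char!)) ν * σ ε * h6 + h7 + ν ^ 2 * hε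
    exact hν1 (pow_eq_zero_iff two_ne_zero |>.mp h8)
  have e4 : y1 * y2 = (w0 ^ 2 + w0) * (y1 + y2) ^ 2 := by
    apply mul_right_cancel₀ (pow_ne_zero 2 hne)
    have e5 : y1 * y2 * (1 + ν * ε) ^ 2 = ν * (1 + ν * τ + ν ^ 2) := by
      linear_combination (norm := (ring_nf; try reduce_mod_char!)) (1 + ν * ε) * e2
        + ν ^ 3 * hε + ν ^ 2 * hτ
    have e6 : (w0 ^ 2 + w0) * (y1 + y2) ^ 2 * (1 + ν * ε) ^ 2
        = (w0 ^ 2 + w0) * g ^ 2 * (1 + ν) ^ 4 := by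
      have : (1 + ν ^ 2) = (1 + ν) ^ 2 := by
        linear_combination (norm := (ring_nf; try reduce_mod_char!)) (0 : E) * hε
      calc (w0 ^ 2 + w0) * (y1 + y2) ^ 2 * (1 + ν * ε) ^ 2
          = (w0 ^ 2 + w0) * ((y1 + y2) * (1 + ν * ε)) ^ 2 := by ring
        _ = _ := by rw [e3, this]; ring
    rw [e5, e6, h0]
    linear_combination (norm := (ring_nf; try reduce_mod_char!)) (1 + ν) ^ 2 * hx
      + τ * (x * (1 + ν) ^ 2 + ν) * hx
  have e7 : (y1 + w0 * (y1 + y2)) * (y1 + (w0 + 1) * (y1 + y2)) = 0 := by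
    linear_combination (norm := (ring_nf; try reduce_mod_char!)) e4
  -- final contradiction
  have key : ∀ w, σ w = w → y1 + w * (y1 + y2) = 0 → False := by
    intro w hw h5
    have h6 : y2 + (w + 1) * (y1 + y2) = 0 := by
      linear_combination (norm := (ring_nf; try reduce_mod_char!)) h5
    have h7 := congrArg σ h5
    have h8 := congrArg σ h6
    simp only [map_add, map_mul, map_one, hw, map_zero] at h7 h8
    set N := (y1 + y2) * (σ y1 + σ y2) with hN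
    have h9 : ν = w ^ 2 * N := by
      rw [← h1, hN]
      linear_combination (norm := (ring_nf; try reduce_mod_char!)) σ y1 * h5
        + w * (y1 + y2) * h7
    have h10 : ν = (w + 1) ^ 2 * N := by
      rw [← h3, hN]
      linear_combination (norm := (ring_nf; try reduce_mod_char!)) σ y2 * h6
        + (w + 1) * (y1 + y2) * h8
    have h11 : N = 0 := by
      linear_combination (norm := (ring_nf; try reduce_mod_char!)) h9 + h10
    rw [h11, mul_zero] at h9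
    exact hν0 h9
  rcases mul_eq_zero.mp e7 with e | e
  · exact key w0 hw0 e
  · exact key (w0 + 1) (by rw [map_add, map_one, hw0]) e

lemma G12 (σ : E →+* E) {ε g y1 y2 τ ν x w0 : E} (hg : σ g = g) (hg0 : g ≠ 0) (hg1 : 1 + g ≠ 0)
    (hε : ε * σ ε = 1) (hτ : ε + σ ε = τ) (hν1 : 1 + ν ≠ 0)
    (hx : x * (1 + ν) ^ 2 = ν) (hw0 : σ w0 = w0) (h0 : (w0 ^ 2 + w0) * (1 + g) ^ 4 = τ * g ^ 2 * x)
    (hσσ : σ (σ y2) = y2) (hσσε : σ (σ ε) = ε)
    (h1 : y1 * σ y1 = 1) (h3 : y2 * σ y2 = ν)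
    (h : y1 + y2 = g * (1 + ε * (y1 * y2))) : False := by
  have e1 : y1 * (1 + g * ε * y2) = g + y2 := by
    linear_combination (norm := (ring_nf; try reduce_mod_char!)) h
  have hs := congrArg σ e1
  simp only [map_add, map_mul, map_one, hg] at hs
  set z := (1 + ε) * y2 with hz
  set R := z + σ z with hR
  have hzs : σ z = (1 + σ ε) * σ y2 := by simp [hz]
  have e2 : g * R = (1 + g ^ 2) * (1 + ν) := by
    have e3 : (1 + g * ε * y2) * (1 + g * σ ε * σ y2) = (g + y2) * (g + σ y2) := by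
      rw [← e1, ← hs]
      linear_combination (- (1 + g * ε * y2) * (1 + g * σ ε * σ y2)) * h1
    have e4 : ε * σ ε * (y2 * σ y2) = ν := by rw [hε, h3, one_mul]
    rw [hR, hzs, hz]
    linear_combination (norm := (ring_nf; try reduce_mod_char!)) e3 + g ^ 2 * e4 + h3
  have hRs : σ R = R := by
    rw [hR, map_add, hzs]
    simp only [map_add, map_mul, map_one, hσσ, hσσε]
    rw [hz]; ring
  have hR0 : R ≠ 0 := by
    intro h5
    rw [h5, mul_zero] at e2
    rcases mul_eq_zero.mp e2.symm with e | e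
    · have : (1 + g) ^ 2 = 0 := by
        linear_combination (norm := (ring_nf; try reduce_mod_char!)) e
      exact hg1 (pow_eq_zero_iff two_ne_zero |>.mp this)
    · exact hν1 e
  have e5 : z * σ z = τ * ν := by
    rw [hzs, hz]
    linear_combination (norm := (ring_nf; try reduce_mod_char!))
      (1 + ε) * (1 + σ ε) * h3 + ν * hε + ν * hτ
  have e6 : z * σ z = (w0 ^ 2 + w0) * R ^ 2 := by
    apply mul_left_cancel₀ (pow_ne_zero 2 hg0)
    have e7 : (w0 ^ 2 + w0) * (g * R) ^ 2 = g ^ 2 * (τ * ν) := by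
      rw [e2]
      linear_combination (norm := (ring_nf; try reduce_mod_char!)) (1 + ν) ^ 2 * h0
        + τ * g ^ 2 * hx
    rw [e5]
    linear_combination - e7
  have e7 : (z + w0 * R) * (z + (w0 + 1) * R) = 0 := by
    linear_combination (norm := (ring_nf; try reduce_mod_char!)) e6 + z * hR
  have key : ∀ w, σ w = w → z + w * R = 0 → False := by
    intro w hw h5
    have h6 : z = w * R := by
      linear_combination (norm := (ring_nf; try reduce_mod_char!)) h5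
    have h7 : σ z = z := by rw [h6, map_mul, hw, hRs]
    apply hR0
    rw [hR, h7]
    exact CharTwo.add_self_eq_zero z
  rcases mul_eq_zero.mp e7 with e | e
  · exact key w0 hw0 e
  · exact key (w0 + 1) (by rw [map_add, map_one, hw0]) e

/-- The main non-vanishing statement. -/
lemma Gmain (σ : E →+* E) (hσσ : ∀ z, σ (σ z) = z) {ε g τ H x w0 w1 : E}
    (hg : σ g = g) (hg0 : g ≠ 0) (hg1 : 1 + g ≠ 0)
    (hε : ε * σ ε = 1) (hτ : ε + σ ε = τ) (hτ0 : τ ≠ 0)
    (hH : σ H = H) (hH0 : H ≠ 0) (hH1 : 1 + H ≠ 0) (hx : x * (1 + H) ^ 2 = H)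
    (hw0 : σ w0 = w0) (h0 : (w0 ^ 2 + w0) * g ^ 2 = x + τ * x ^ 2)
    (hw1 : σ w1 = w1) (h1 : (w1 ^ 2 + w1) * (1 + g) ^ 4 = τ * g ^ 2 * x)
    {U V W : E} (hU : U * σ U = 1 ∨ U * σ U = H) (hV : V * σ V = 1 ∨ V * σ V = H)
    (hW : W * σ W = 1 ∨ W * σ W = H) (hne : U ≠ V) :
    W * (U + V) + g * (W ^ 2 + ε * (U * V)) ≠ 0 := by
  intro h
  have hW0 : W ≠ 0 := by
    rintro rfl
    simp at hW
    exact hH0 hW.symm
  have hε1 : 1 + ε ≠ 0 := by
    intro h5
    have h6 : ε = 1 := by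
      linear_combination (norm := (ring_nf; try reduce_mod_char!)) h5
    apply hτ0
    rw [← hτ, h6, map_one]
    exact CharTwo.add_self_eq_zero 1
  have hHi : σ H⁻¹ = H⁻¹ := by rw [map_inv₀, hH]
  have hHi0 : H⁻¹ ≠ 0 := inv_ne_zero hH0
  have hHi1 : 1 + H⁻¹ ≠ 0 := by
    intro h5
    apply hH1
    have : H * (1 + H⁻¹) = 1 + H := by
      rw [mul_add, mul_inv_cancel₀ hH0]; ring
    rw [← this, h5, mul_zero]
  have hxi : x * (1 + H⁻¹) ^ 2 = H⁻¹ := by
    have e : x * (1 + H⁻¹) ^ 2 * H ^ 2 = H⁻¹ * H ^ 2 := by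
      calc x * (1 + H⁻¹) ^ 2 * H ^ 2 = x * (H * (1 + H⁻¹)) ^ 2 := by ring
        _ = x * (1 + H) ^ 2 := by
          rw [mul_add, mul_inv_cancel₀ hH0]; ring
        _ = H := hx
        _ = H⁻¹ * H ^ 2 := by
          rw [sq, ← mul_assoc, inv_mul_cancel₀ hH0, one_mul]
    exact mul_right_cancel₀ (pow_ne_zero 2 hH0) e
  have hne' : U / W ≠ V / W := by
    intro h5
    exact hne ((div_left_inj' hW0).mp h5)
  have heq : ∀ A B : E, W * (A + B) + g * (W ^ 2 + ε * (A * B)) = 0 →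
      A / W + B / W = g * (1 + ε * (A / W * (B / W))) := by
    intro A B hAB
    field_simp
    linear_combination (norm := (ring_nf; try reduce_mod_char!)) hAB
  have hnorm : ∀ A c d : E, A * σ A = c → W * σ W = d → A / W * σ (A / W) = c / d := by
    intro A c d hA hd
    rw [map_div₀, div_mul_div_comm, hA, hd]
  have hUV := heq U V h
  have hVU := heq V U (by linear_combination h)
  rcases hW with hW | hW <;> rcases hU with hU | hU <;> rcases hV with hV | hV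
  · exact hne' (G11 σ hg hg0 hε hε1 (by simpa using hnorm U 1 1 hU hW)
      (by simpa using hnorm V 1 1 hV hW) hUV)
  · exact G12 σ hg hg0 hg1 hε hτ hH1 hx hw1 h1 (hσσ _) (hσσ _)
      (by simpa using hnorm U 1 1 hU hW) (by simpa using hnorm V H 1 hV hW) hUV
  · exact G12 σ hg hg0 hg1 hε hτ hH1 hx hw1 h1 (hσσ _) (hσσ _)
      (by simpa using hnorm V 1 1 hV hW) (by simpa using hnorm U H 1 hU hW) hVU
  · exact G22 σ hg hg0 hε hτ hH hH0 hH1 hx hw0 h0
      (by simpa using hnorm U H 1 hU hW) (by simpa using hnorm V H 1 hV hW) hUV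
  · exact G22 σ hg hg0 hε hτ hHi hHi0 hHi1 hxi hw0 h0
      (by simpa using hnorm U 1 H hU hW) (by simpa using hnorm V 1 H hV hW) hUV
  · exact G12 σ hg hg0 hg1 hε hτ hHi1 hxi hw1 h1 (hσσ _) (hσσ _)
      (by simpa [hH0] using hnorm V H H hV hW) (by simpa using hnorm U 1 H hU hW) hVU
  · exact G12 σ hg hg0 hg1 hε hτ hHi1 hxi hw1 h1 (hσσ _) (hσσ _)
      (by simpa [hH0] using hnorm U H H hU hW) (by simpa using hnorm V 1 H hV hW) hUV
  · exact hne' (G11 σ hg hg0 hε hε1 (by simpa [hH0] using hnorm U H H hU hW)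
      (by simpa [hH0] using hnorm V H H hV hW) hUV)

/-- The determinant of three points, at least two of them on the same conic. -/
lemma D_ne (σ : E →+* E) (hσσ : ∀ z, σ (σ z) = z) {ε g τ H x w0 w1 w2 : E}
    (hg : σ g = g) (hg0 : g ≠ 0) (hg1 : 1 + g ≠ 0)
    (hε : ε * σ ε = 1) (hτ : ε + σ ε = τ) (hτ0 : τ ≠ 0)
    (hH : σ H = H) (hH0 : H ≠ 0) (hH1 : 1 + H ≠ 0) (hx : x * (1 + H) ^ 2 = H)
    (hw0 : σ w0 = w0) (h0 : (w0 ^ 2 + w0) * g ^ 2 = x + τ * x ^ 2)
    (hw2 : σ w2 = w2) (h2 : w2 ^ 2 + w2 = (x + τ * x ^ 2) * g ^ 2)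
    (hw1 : σ w1 = w1) (h1 : (w1 ^ 2 + w1) * (1 + g) ^ 4 = τ * g ^ 2 * x)
    {U V W : E} (hU : U * σ U = 1 ∨ U * σ U = H) (hV : V * σ V = 1 ∨ V * σ V = H)
    (hW : W * σ W = 1 ∨ W * σ W = H) (hne : U ≠ V) {s t : Bool}
    (hst : s = t → W ≠ U ∧ W ≠ V) {Y1 Y2 Y3 Z1 Z2 Z3 : E}
    (hY1 : Y1 = cond s g 1 * U) (hY2 : Y2 = cond s g 1 * V) (hY3 : Y3 = cond t g 1 * W)
    (hZ1 : Y1 * Z1 = cond s (g ^ 2 * ε) 1) (hZ2 : Y2 * Z2 = cond s (g ^ 2 * ε) 1)
    (hZ3 : Y3 * Z3 = cond t (g ^ 2 * ε) 1) :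
    Y1 * Z2 + Y2 * Z1 + (Y1 * Z3 + Y3 * Z1) + (Y2 * Z3 + Y3 * Z2) ≠ 0 := by
  intro hD
  have hε0 : ε ≠ 0 := left_ne_zero_of_mul_eq_one hε
  have hs : cond s g 1 ≠ 0 := by cases s <;> simp [hg0]
  set c1 := cond s (g ^ 2 * ε) 1 with hc1
  set c2 := cond t (g ^ 2 * ε) 1 with hc2
  have hc10 : c1 ≠ 0 := by
    rw [hc1]; cases s <;> simp [hg0, hε0]
  have e1 : (Y1 + Y2) * (c1 * Y3 * (Y1 + Y2 + Y3) + c2 * Y1 * Y2) = 0 := by
    linear_combination (norm := (ring_nf; try reduce_mod_char!)) (Y1 * Y2 * Y3) * hD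
      + (Y2 ^ 2 * Y3 + Y2 * Y3 ^ 2) * hZ1 + (Y1 ^ 2 * Y3 + Y1 * Y3 ^ 2) * hZ2
      + (Y1 ^ 2 * Y2 + Y1 * Y2 ^ 2) * hZ3
  have e2 : Y1 + Y2 ≠ 0 := by
    intro h5
    have h6 : Y1 = Y2 := CharTwo.add_eq_zero.mp h5
    rw [hY1, hY2] at h6
    exact hne (mul_left_cancel₀ hs h6)
  have e3 : c1 * Y3 * (Y1 + Y2 + Y3) + c2 * Y1 * Y2 = 0 :=
    (mul_eq_zero.mp e1).resolve_left e2
  by_cases hst' : s = t
  · subst hst'
    obtain ⟨hWU, hWV⟩ := hst rfl
    have e4 : c1 * ((Y3 + Y1) * (Y3 + Y2)) = 0 := by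
      rw [hc2] at e3
      rw [hc1] at e3 ⊢
      linear_combination e3
    rcases mul_eq_zero.mp e4 with h5 | h5
    · exact hc10 h5
    · rcases mul_eq_zero.mp h5 with h5 | h5
      · have h6 : Y3 = Y1 := CharTwo.add_eq_zero.mp h5
        rw [hY1, hY3] at h6
        exact hWU (mul_left_cancel₀ hs h6)
      · have h6 : Y3 = Y2 := CharTwo.add_eq_zero.mp h5
        rw [hY2, hY3] at h6
        exact hWV (mul_left_cancel₀ hs h6)
  · have hgi : g⁻¹ * g = 1 := inv_mul_cancel₀ hg0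
    cases s <;> cases t
    · exact hst' rfl
    · -- pair on the first conic
      simp only [cond_false, cond_true, one_mul] at *
      rw [hc1, hc2] at e3
      refine Gmain σ hσσ hg hg0 hg1 hε hτ hτ0 hH hH0 hH1 hx hw0 h0 hw1 h1 hU hV hW hne ?_
      apply mul_left_cancel₀ hg0
      rw [mul_zero, ← e3, hY1, hY2, hY3]
      ring
    · simp only [cond_false, cond_true, one_mul] at *
      rw [hc1, hc2] at e3
      have hgi0 : g⁻¹ ≠ 0 := inv_ne_zero hg0
      refine Gmain (g := g⁻¹) (ε := σ ε) (τ := τ) (x := x) (w0 := w2) (w1 := w1) σ hσσ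
        (by rw [map_inv₀, hg]) hgi0 ?_ (by rw [hσσ, mul_comm, hε]) (by rw [hσσ, add_comm, hτ]) hτ0
        hH hH0 hH1 hx hw2 ?_ hw1 ?_ hU hV hW hne ?_
      · intro h5
        apply hg1
        have : (1 + g) = g * (1 + g⁻¹) := by
          rw [mul_add, mul_inv_cancel₀ hg0]; ring
        rw [this, h5, mul_zero]
      · rw [h2]
        linear_combination (x + τ * x ^ 2) * (g⁻¹ * g + 1) * hgi
      · apply mul_left_cancel₀ (pow_ne_zero 4 hg0)
        have e6 : g ^ 4 * (1 + g⁻¹) ^ 4 = (1 + g) ^ 4 := by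
          have : (1 + g) = g * (1 + g⁻¹) := by
            rw [mul_add, mul_inv_cancel₀ hg0]; ring
          rw [this]; ring
        have e7 : g ^ 4 * g⁻¹ ^ 2 = g ^ 2 := by
          linear_combination g ^ 2 * (g⁻¹ * g + 1) * hgi
        calc g ^ 4 * ((w1 ^ 2 + w1) * (1 + g⁻¹) ^ 4)
            = (w1 ^ 2 + w1) * (g ^ 4 * (1 + g⁻¹) ^ 4) := by ring
          _ = τ * (g ^ 4 * g⁻¹ ^ 2) * x := by rw [e6, h1, e7]
          _ = _ := by ring
      · apply mul_left_cancel₀ (mul_ne_zero (pow_ne_zero 3 hg0) hε0)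
        rw [mul_zero, ← e3, hY1, hY2, hY3]
        linear_combination (g ^ 2 * ε * W ^ 2 + g ^ 2 * ε * σ ε * (U * V)) * hgi
          + g ^ 2 * U * V * hε
    · exact hst' rfl

end conic

end Pool.Agent.Lib_MP_e76747
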