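import Pool.Agent.Lib_MP_e76747.Defs

/-! # The lower bound and a sufficient criterion for attaining it -/

namespace Pool.Agent.Lib_MP_e76747

open Matrix

section lower

variable {F : Type*} [Field F] {n r l : ℕ}
variable [Fintype F]

lemma card_vecMul_eq_zero [DecidableEq F] (A : Matrix (Fin l) (Fin l) F) :
    (Finset.univ.filter fun v : Fin l → F => v ᵥ* A = 0).card
      = Fintype.card F ^ (l - A.rank) := by
  classical
  have h1 := LinearMap.finrank_range_add_finrank_ker (Aᵀ.mulVecLin)
  have h2 : Module.finrank F (LinearMap.range (Aᵀ.mulVecLin)) = A.rank := by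
    rw [← Matrix.rank_transpose A]; rfl
  have h3 : Module.finrank F (LinearMap.ker (Aᵀ.mulVecLin)) = l - A.rank := by
    rw [h2] at h1
    simp at h1
    omega
  have h4 : Fintype.card (LinearMap.ker (Aᵀ.mulVecLin)) = Fintype.card F ^ (l - A.rank) := by
    rw [← h3]
    exact Module.card_eq_pow_finrank
  rw [← h4, ← Fintype.card_coe]
  apply Fintype.card_congr
  apply Equiv.subtypeEquivRight
  intro v
  simp [LinearMap.mem_ker]

lemma geom_ge (q d : ℕ) (hq : 1 ≤ q) : d * (q - 1) + 1 ≤ q ^ d := by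
  induction d with
  | zero => simp
  | succ d ih =>
    obtain ⟨p, rfl⟩ : ∃ p, q = p + 1 := ⟨q - 1, by omega⟩
    simp only [Nat.add_sub_cancel] at *
    have : 1 ≤ (p + 1) ^ d := Nat.one_le_pow _ _ (by omega)
    calc (d + 1) * p + 1 = (d * p + 1) + p := by ring
      _ ≤ (p + 1) ^ d + p := by omega
      _ ≤ (p + 1) ^ d + (p + 1) ^ d * p := by
          have : p ≤ (p + 1) ^ d * p := Nat.le_mul_of_pos_left _ (by omega)
          omega
      _ = (p + 1) ^ (d + 1) := by ring

omit [Fintype F] in
lemma card_zero_le (H : Fin n → Matrix (Fin r × Fin l) (Fin l) F) (hH : IsMDS H) (hr : 1 ≤ r)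
    (i : Fin n) (M : Matrix (Fin l) (Fin r × Fin l) F) (hM : IsRepair H i M)
    (v : Fin l → F) (hv : v ≠ 0) [DecidableEq F] :
    (Finset.univ.filter fun j : Fin n => v ᵥ* (M * H j) = 0).card ≤ r - 1 := by
  classical
  by_contra hcon
  push Not at hcon
  have hcard : r ≤ (Finset.univ.filter fun j : Fin n => v ᵥ* (M * H j) = 0).card := by omega
  obtain ⟨s, hs, hsc⟩ := Finset.exists_subset_card_eq hcard
  let e : Fin r → Fin n := fun b => s.orderEmbOfFin hsc b
  have he : Function.Injective e := (s.orderEmbOfFin hsc).injective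
  have hes : ∀ b, v ᵥ* (M * H (e b)) = 0 := by
    intro b
    have := hs (s.orderEmbOfFin_mem hsc b)
    simpa using this
  have hu := hH e he
  have h0 : (v ᵥ* M) ᵥ* blockMatrix H e = 0 := by
    ext b
    have := congrFun (hes b.1) b.2
    rw [← Matrix.vecMul_vecMul] at this
    simpa [Matrix.vecMul, dotProduct, blockMatrix] using this
  have h1 : v ᵥ* M = 0 := by
    have hinj := Matrix.vecMul_injective_of_isUnit hu
    apply hinj
    simpa using h0
  have h2 : v ᵥ* (M * H i) = 0 := by
    rw [← Matrix.vecMul_vecMul, h1]; simp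
  have h3 : v = 0 := by
    have hinj := Matrix.vecMul_injective_of_isUnit hM
    apply hinj
    simpa using h2
  exact hv h3

/-- The known lower bound, in the form `ℓ(n-1)(q-1) ≤ BW (q-1) + (r-1)(q^ℓ-1)`. -/
lemma lower_bound (H : Fin n → Matrix (Fin r × Fin l) (Fin l) F) (hH : IsMDS H) (hr : 1 ≤ r)
    (i : Fin n) (M : Matrix (Fin l) (Fin r × Fin l) F) (hM : IsRepair H i M) :
    l * (n - 1) * (Fintype.card F - 1) ≤
      BW H i M * (Fintype.card F - 1) + (r - 1) * (Fintype.card F ^ l - 1) := by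
  classical
  set q := Fintype.card F with hq
  have hq1 : 1 ≤ q := Fintype.card_pos
  -- double count pairs (v, j)
  have hcount : ∑ j ∈ Finset.univ.erase i, (q ^ (l - (M * H j).rank) - 1)
      ≤ (r - 1) * (q ^ l - 1) := by
    have e1 : ∀ j, q ^ (l - (M * H j).rank) - 1
        = ((Finset.univ.erase (0 : Fin l → F)).filter fun v => v ᵥ* (M * H j) = 0).card := by
      intro j
      rw [hq, ← card_vecMul_eq_zero, Finset.filter_erase, Finset.card_erase_of_mem]
      simp
    calc ∑ j ∈ Finset.univ.erase i, (q ^ (l - (M * H j).rank) - 1)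
        ≤ ∑ j, (q ^ (l - (M * H j).rank) - 1) :=
          Finset.sum_le_sum_of_subset (Finset.erase_subset _ _)
      _ = ∑ j, ∑ v ∈ Finset.univ.erase (0 : Fin l → F), if v ᵥ* (M * H j) = 0 then 1 else 0 := by
          refine Finset.sum_congr rfl fun j _ => ?_
          rw [e1 j, Finset.card_filter]
      _ = ∑ v ∈ Finset.univ.erase (0 : Fin l → F), ∑ j, if v ᵥ* (M * H j) = 0 then 1 else 0 :=
          Finset.sum_comm
      _ ≤ ∑ v ∈ Finset.univ.erase (0 : Fin l → F), (r - 1) := by
          refine Finset.sum_le_sum fun v hv => ?_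
          rw [← Finset.card_filter]
          exact card_zero_le H hH hr i M hM v (Finset.ne_of_mem_erase hv)
      _ = (r - 1) * (q ^ l - 1) := by
          rw [Finset.sum_const, Finset.card_erase_of_mem (Finset.mem_univ _), Finset.card_univ]
          simp [mul_comm, hq]
  have hterm : ∀ j, (l - (M * H j).rank) * (q - 1) ≤ q ^ (l - (M * H j).rank) - 1 := by
    intro j
    have := geom_ge q (l - (M * H j).rank) hq1
    omega
  have hsum : ∑ j ∈ Finset.univ.erase i, (l - (M * H j).rank) * (q - 1)
      ≤ (r - 1) * (q ^ l - 1) :=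
    (Finset.sum_le_sum fun j _ => hterm j).trans hcount
  have hrank : ∀ j, (M * H j).rank ≤ l := by
    intro j
    simpa using Matrix.rank_le_width (M * H j)
  have hl : l * (n - 1) = ∑ j ∈ Finset.univ.erase i, ((l - (M * H j).rank) + (M * H j).rank) := by
    rw [Finset.sum_congr rfl (fun j _ => Nat.sub_add_cancel (hrank j))]
    rw [Finset.sum_const, Finset.card_erase_of_mem (Finset.mem_univ _), Finset.card_univ]
    simp [mul_comm]
  rw [hl, Finset.sum_add_distrib, add_mul, Finset.sum_mul]
  unfold BW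
  omega

end lower

lemma rank_le_nz {F : Type*} [Field F] {a b : ℕ} (A : Matrix (Fin a) (Fin b) F) :
    A.rank ≤ nz A := by
  classical
  rw [Matrix.rank_eq_finrank_span_cols]
  set S := Finset.univ.filter fun c : Fin b => ∃ x, A x c ≠ 0 with hS
  have h1 : Submodule.span F (Set.range A.col) ≤
      Submodule.span F ((S.image A.col : Finset (Fin a → F)) : Set (Fin a → F)) := by
    rw [Submodule.span_le]
    rintro _ ⟨c, rfl⟩
    by_cases hc : ∃ x, A x c ≠ 0
    · apply Submodule.subset_span
      simp only [Finset.coe_image, Set.mem_image, Finset.mem_coe]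
      exact ⟨c, by simp [hS, hc], rfl⟩
    · push Not at hc
      have : A.col c = 0 := by
        ext x
        simpa [Matrix.col] using hc x
      rw [this]
      exact Submodule.zero_mem _
  calc Module.finrank F (Submodule.span F (Set.range A.col))
      ≤ Module.finrank F (Submodule.span F
          ((S.image A.col : Finset (Fin a → F)) : Set (Fin a → F))) :=
        Submodule.finrank_mono h1
    _ ≤ (S.image A.col).card := finrank_span_finset_le_card _
    _ ≤ S.card := Finset.card_image_le
    _ = nz A := by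
      unfold nz
      rw [hS]

lemma BW_le_IO {F : Type*} [Field F] {n r l : ℕ} (H : Fin n → Matrix (Fin r × Fin l) (Fin l) F)
    (i : Fin n) (M : Matrix (Fin l) (Fin r × Fin l) F) : BW H i M ≤ IO H i M :=
  Finset.sum_le_sum fun _ _ => rank_le_nz _

lemma nz_le {R : Type*} [Zero R] {a b : ℕ} (A : Matrix (Fin a) (Fin b) R) : nz A ≤ b := by
  classical
  unfold nz
  calc _ ≤ (Finset.univ : Finset (Fin b)).card := Finset.card_filter_le _ _
    _ = b := by simp

lemma nz_le_one {R : Type*} [Zero R] {a : ℕ} (A : Matrix (Fin a) (Fin 2) R)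
    (h : ∀ x, A x 0 = 0) : nz A ≤ 1 := by
  classical
  unfold nz
  calc _ ≤ ({1} : Finset (Fin 2)).card := by
        apply Finset.card_le_card
        intro c hc
        rw [Finset.mem_filter] at hc
        obtain ⟨-, x, hx⟩ := hc
        rw [Finset.mem_singleton]
        by_contra h1
        have : c = 0 := by omega
        rw [this] at hx
        exact hx (h x)
    _ = 1 := by simp

/-- Conclusion of all constructions: the code attains the bound. -/
def Attained {F : Type*} [Field F] [Fintype F] (n : ℕ)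
    (H : Fin n → Matrix (Fin 3 × Fin 2) (Fin 2) F) : Prop :=
  IsMDS H ∧ betaAvg H = bound n 3 2 (Fintype.card F) ∧
    ∀ i, (beta H i : ℚ) = bound n 3 2 (Fintype.card F) ∧
      (gamma H i : ℚ) = bound n 3 2 (Fintype.card F)

/-- Sufficient criterion. -/
lemma attained_of {F : Type*} [Field F] [Fintype F] {n : ℕ} (hn : 0 < n)
    (H : Fin n → Matrix (Fin 3 × Fin 2) (Fin 2) F) (hH : IsMDS H)
    (h : ∀ i, ∃ M, IsRepair H i M ∧ IO H i M + 2 * (Fintype.card F + 1) ≤ 2 * (n - 1)) :
    Attained n H := by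
  set q := Fintype.card F with hq
  have hq1 : 1 < q := Fintype.one_lt_card
  obtain ⟨p, hp⟩ : ∃ p, q = p + 1 := ⟨q - 1, by omega⟩
  have hp0 : 0 < p := by omega
  have hlow : ∀ i M, IsRepair H i M → 2 * (n - 1) ≤ BW H i M + 2 * (q + 1) := by
    intro i M hM
    have h1 := lower_bound H hH (by norm_num) i M hM
    rw [← hq, hp] at h1
    have e1 : (p + 1) ^ 2 - 1 = (p + 2) * p := by
      have : (p + 1) ^ 2 = (p + 2) * p + 1 := by ring
      omega
    rw [e1] at h1
    simp only [Nat.add_sub_cancel] at h1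
    have h2 : (2 * (n - 1)) * p ≤ (BW H i M + 2 * (p + 1 + 1)) * p := by
      calc (2 * (n - 1)) * p ≤ _ := h1
        _ = (BW H i M + 2 * (p + 1 + 1)) * p := by norm_num; ring
    rw [hp]
    exact Nat.le_of_mul_le_mul_right h2 hp0
  have hB : bound n 3 2 q = ((2 * (n - 1) - 2 * (q + 1) : ℕ) : ℚ) := by
    obtain ⟨M, hM, hIO⟩ := h ⟨0, hn⟩
    have h3 : 2 * (q + 1) ≤ 2 * (n - 1) := by omega
    rw [Nat.cast_sub h3]
    obtain ⟨k, hk⟩ : ∃ k, n = k + 1 := ⟨n - 1, by omega⟩
    subst hk
    unfold bound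
    rw [hp]
    have hp' : (p : ℚ) ≠ 0 := by positivity
    have e2 : ((((p + 1 : ℕ) : ℚ)) ^ 2 - 1) / (((p + 1 : ℕ) : ℚ) - 1) = p + 2 := by
      have e3 : (((p + 1 : ℕ) : ℚ)) - 1 = p := by push_cast; ring
      rw [e3, div_eq_iff hp']
      push_cast
      ring
    rw [e2]
    have e4 : k + 1 - 1 = k := by omega
    rw [e4]
    push_cast
    ring
  have hbeta : ∀ i, beta H i = 2 * (n - 1) - 2 * (q + 1) := by
    intro i
    obtain ⟨M, hM, hIO⟩ := h i
    have h1 := BW_le_IO H i M
    have h2 := hlow i M hM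
    have hmem : (2 * (n - 1) - 2 * (q + 1)) ∈ {b | ∃ M, IsRepair H i M ∧ BW H i M = b} :=
      ⟨M, hM, by omega⟩
    apply le_antisymm
    · exact Nat.sInf_le hmem
    · apply le_csInf ⟨_, hmem⟩
      rintro b ⟨M', hM', rfl⟩
      have := hlow i M' hM'
      omega
  have hgamma : ∀ i, gamma H i = 2 * (n - 1) - 2 * (q + 1) := by
    intro i
    obtain ⟨M, hM, hIO⟩ := h i
    have h1 := BW_le_IO H i M
    have h2 := hlow i M hM
    have hmem : (2 * (n - 1) - 2 * (q + 1)) ∈ {b | ∃ M, IsRepair H i M ∧ IO H i M = b} :=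
      ⟨M, hM, by omega⟩
    apply le_antisymm
    · exact Nat.sInf_le hmem
    · apply le_csInf ⟨_, hmem⟩
      rintro b ⟨M', hM', rfl⟩
      have := hlow i M' hM'
      have := BW_le_IO H i M'
      omega
  refine ⟨hH, ?_, fun i => ⟨?_, ?_⟩⟩
  · rw [hB]
    unfold betaAvg
    simp only [hbeta, Finset.sum_const, Finset.card_univ, Fintype.card_fin, nsmul_eq_mul]
    have : (n : ℚ) ≠ 0 := by positivity
    field_simp
  · rw [hB, hbeta]
  · rw [hB, hgamma]

/-- Ring level data from which the criterion follows. -/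
structure RData (K : Type*) [CommRing K] (ι : Type*) [Fintype ι] [DecidableEq ι] (m : ℕ)
    (H : ι → Matrix (Fin 3 × Fin 2) (Fin 2) K) : Prop where
  mds : ∀ e : Fin 3 → ι, Function.Injective e →
    IsUnit (Matrix.of fun (a b : Fin 3 × Fin 2) => H (e b.1) a b.2)
  rep : ∀ i, ∃ M : Matrix (Fin 2) (Fin 3 × Fin 2) K, IsUnit (M * H i) ∧
    ∑ j ∈ Finset.univ.erase i, nz (M * H j) ≤ m

lemma nz_map {K F : Type*} [CommRing K] [CommRing F] (f : K →+* F) (hf : Function.Injective f)
    {a b : ℕ} (A : Matrix (Fin a) (Fin b) K) : nz (A.map f) = nz A := by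
  classical
  unfold nz
  apply congrArg Finset.card
  apply Finset.ext
  intro c
  rw [Finset.mem_filter, Finset.mem_filter]
  simp only [Finset.mem_univ, true_and, Matrix.map_apply]
  constructor
  · rintro ⟨a, ha⟩
    refine ⟨a, fun h => ha ?_⟩
    rw [h, map_zero]
  · rintro ⟨a, ha⟩
    refine ⟨a, fun h => ha (hf ?_)⟩
    rw [h, map_zero]

lemma RData.map {K : Type*} [CommRing K] {ι : Type*} [Fintype ι] [DecidableEq ι] {m : ℕ}
    {H : ι → Matrix (Fin 3 × Fin 2) (Fin 2) K} (h : RData K ι m H)
    {F : Type*} [CommRing F] (f : K →+* F) (hf : Function.Injective f) :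
    RData F ι m (fun j => (H j).map f) where
  mds := fun e he => (h.mds e he).map (RingHom.mapMatrix f)
  rep := fun i => by
    obtain ⟨M, hM, hs⟩ := h.rep i
    have hmul : ∀ j, M.map f * (H j).map f = (M * H j).map f := fun j => (Matrix.map_mul).symm
    refine ⟨M.map f, ?_, ?_⟩
    · rw [hmul]
      exact hM.map (RingHom.mapMatrix f)
    · simp only [hmul, nz_map f hf]
      exact hs

lemma RData.attained {F : Type*} [Field F] [Fintype F] {ι : Type*} [Fintype ι] [DecidableEq ι]
    {m : ℕ} {H : ι → Matrix (Fin 3 × Fin 2) (Fin 2) F} (h : RData F ι m H)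
    (hm : m + 2 * (Fintype.card F + 1) ≤ 2 * (Fintype.card ι - 1)) :
    ∃ H' : Fin (Fintype.card ι) → Matrix (Fin 3 × Fin 2) (Fin 2) F,
      Attained (Fintype.card ι) H' := by
  classical
  let e := Fintype.equivFin ι
  refine ⟨fun j => H (e.symm j), attained_of (by omega) _ ?_ ?_⟩
  · intro t ht
    exact h.mds (fun b => e.symm (t b)) (e.symm.injective.comp ht)
  · intro i
    obtain ⟨M, hM, hs⟩ := h.rep (e.symm i)
    refine ⟨M, hM, ?_⟩
    have : IO (fun j => H (e.symm j)) i M ≤ m := by
      refine le_trans (le_of_eq ?_) hs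
      unfold IO
      refine Finset.sum_bij (fun j _ => e.symm j) ?_ ?_ ?_ ?_
      · intro j hj
        rw [Finset.mem_erase] at hj ⊢
        exact ⟨fun h => hj.1 (e.symm.injective h), Finset.mem_univ _⟩
      · intro a _ b _ hab
        exact e.symm.injective hab
      · intro j hj
        refine ⟨e j, ?_, by simp⟩
        rw [Finset.mem_erase] at hj ⊢
        refine ⟨fun h => hj.1 ?_, Finset.mem_univ _⟩
        rw [← h]; simp
      · intro j _
        rfl
    omega

end Pool.Agent.Lib_MP_e76747
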