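import Mathlib

/-!
# MDS array codes and their repair quantities

Definitions used in the statement of the hand-in for `MP_e76747_lc`.
A code is given by its blocks `H j` (`j : Fin n`); block `H j` has `r * l` rows, indexed by
`Fin r × Fin l`, and `l` columns.
-/

namespace Pool.Agent.Lib_MP_e76747

open Matrix

variable {F : Type*} [Field F] {n r l : ℕ}

/-- The square matrix `[H_{e 0} ⋯ H_{e (r-1)}]` formed by `r` of the blocks. -/
def blockMatrix (H : Fin n → Matrix (Fin r × Fin l) (Fin l) F) (e : Fin r → Fin n) :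
    Matrix (Fin r × Fin l) (Fin r × Fin l) F :=
  Matrix.of fun a b => H (e b.1) a b.2

/-- The MDS condition: for any `r` distinct nodes the square block matrix is invertible. -/
def IsMDS (H : Fin n → Matrix (Fin r × Fin l) (Fin l) F) : Prop :=
  ∀ e : Fin r → Fin n, Function.Injective e → IsUnit (blockMatrix H e)

/-- `M` is a repair matrix for node `i`: the square matrix `M * H i` is invertible. -/
def IsRepair (H : Fin n → Matrix (Fin r × Fin l) (Fin l) F) (i : Fin n)
    (M : Matrix (Fin l) (Fin r × Fin l) F) : Prop :=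
  IsUnit (M * H i)

/-- `BW_i(M) = ∑_{j ≠ i} rank (M H_j)`. -/
noncomputable def BW (H : Fin n → Matrix (Fin r × Fin l) (Fin l) F) (i : Fin n)
    (M : Matrix (Fin l) (Fin r × Fin l) F) : ℕ :=
  ∑ j ∈ Finset.univ.erase i, (M * H j).rank

open Classical in
/-- The number of nonzero columns of a matrix. -/
noncomputable def nz {R : Type*} [Zero R] {a b : ℕ} (A : Matrix (Fin a) (Fin b) R) : ℕ :=
  (Finset.univ.filter fun c : Fin b => ∃ x, A x c ≠ 0).card

/-- `IO_i(M) = ∑_{j ≠ i} nz (M H_j)`. -/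
noncomputable def IO (H : Fin n → Matrix (Fin r × Fin l) (Fin l) F) (i : Fin n)
    (M : Matrix (Fin l) (Fin r × Fin l) F) : ℕ :=
  ∑ j ∈ Finset.univ.erase i, nz (M * H j)

/-- `β_i`: the least value of `BW_i(M)` over all repair matrices `M` for node `i`. -/
noncomputable def beta (H : Fin n → Matrix (Fin r × Fin l) (Fin l) F) (i : Fin n) : ℕ :=
  sInf {b | ∃ M, IsRepair H i M ∧ BW H i M = b}

/-- `γ_i`: the least value of `IO_i(M)` over all repair matrices `M` for node `i`. -/
noncomputable def gamma (H : Fin n → Matrix (Fin r × Fin l) (Fin l) F) (i : Fin n) : ℕ :=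
  sInf {b | ∃ M, IsRepair H i M ∧ IO H i M = b}

/-- `β_avg`: the mean of the `β_i`. -/
noncomputable def betaAvg (H : Fin n → Matrix (Fin r × Fin l) (Fin l) F) : ℚ :=
  (∑ i, (beta H i : ℚ)) / n

/-- The bound `B(n,r,ℓ,q) = ℓ(n-1) - (r-1)(q^ℓ-1)/(q-1)`. -/
def bound (n r l q : ℕ) : ℚ :=
  l * ((n : ℚ) - 1) - ((r : ℚ) - 1) * (((q : ℚ) ^ l - 1) / ((q : ℚ) - 1))

end Pool.Agent.Lib_MP_e76747
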