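import Pool.Agent.Lib_MP_e76747.Geo

/-! # The case `q = 8` -/

namespace Pool.Agent.Lib_MP_e76747

open Matrix

/-- Concrete field with eight elements. -/
structure K8 where
  v : Fin 8
deriving DecidableEq

namespace K8

def equiv : K8 ≃ Fin 8 := ⟨K8.v, K8.mk, fun _ => rfl, fun _ => rfl⟩
instance : Fintype K8 := Fintype.ofEquiv _ equiv.symm
instance : Add K8 := ⟨fun a b => ⟨Fin.ofNat 8 (a.v.val ^^^ b.v.val)⟩⟩
instance : Mul K8 := ⟨fun a b => ⟨Fin.ofNat 8
  (2821848294356612419217921029917578219971947684264937521152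
    >>> (24 * a.v.val + 3 * b.v.val))⟩⟩
instance : Zero K8 := ⟨⟨0⟩⟩
instance : One K8 := ⟨⟨1⟩⟩
instance : Neg K8 := ⟨id⟩

lemma forall_iff {p : K8 → Prop} : (∀ x, p x) ↔ ∀ i : Fin 8, p ⟨i⟩ :=
  ⟨fun h i => h ⟨i⟩, fun h x => h x.v⟩

instance : CommRing K8 where
  add_assoc := by simp only [forall_iff]; decide +kernel
  zero_add := by simp only [forall_iff]; decide +kernel
  add_zero := by simp only [forall_iff]; decide +kernel
  add_comm := by simp only [forall_iff]; decide +kernel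
  left_distrib := by simp only [forall_iff]; decide +kernel
  right_distrib := by simp only [forall_iff]; decide +kernel
  zero_mul := by simp only [forall_iff]; decide +kernel
  mul_zero := by simp only [forall_iff]; decide +kernel
  mul_assoc := by simp only [forall_iff]; decide +kernel
  one_mul := by simp only [forall_iff]; decide +kernel
  mul_one := by simp only [forall_iff]; decide +kernel
  neg_add_cancel := by simp only [forall_iff]; decide +kernel
  mul_comm := by simp only [forall_iff]; decide +kernel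
  nsmul := nsmulRec
  zsmul := zsmulRec

instance : Nontrivial K8 := ⟨⟨0, 1, by decide⟩⟩

lemma exists_inv : ∀ a : K8, a ≠ 0 → ∃ b, a * b = 1 := by
  have h : ∀ i : Fin 8, (⟨i⟩ : K8) ≠ 0 → ∃ b : Fin 8, (⟨i⟩ : K8) * ⟨b⟩ = 1 := by decide +kernel
  intro a ha
  obtain ⟨b, hb⟩ := h a.v ha
  exact ⟨⟨b⟩, hb⟩

/-- The field structure, kept out of instance search. -/
@[reducible] noncomputable def fieldK8 : Field K8 :=
  IsField.toField ⟨⟨0, 1, by decide⟩, mul_comm, fun {a} ha => exists_inv a ha⟩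

end K8

/-- The quadratic extension. -/
abbrev K64 := QuadraticAlgebra K8 1 1

/-- Decoding of numbers below `64`. -/
def dec64 (n : ℕ) : K64 := ⟨⟨Fin.ofNat 8 n⟩, ⟨Fin.ofNat 8 (n / 8)⟩⟩

def tb (j : Fin 36) : K64 := dec64
  (61850090087757313565762504997203137426159542820567382276233502183 >>> (6 * j.val))
def tp (j : Fin 36) : K64 := dec64
  (431225174664944136987101935132667063328161500437420005109894702 >>> (6 * j.val))
def tf (j : Fin 36) : K64 := dec64
  (359088319737112508977200803769895217608618879434758243030840364 >>> (6 * j.val))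

/-- The homogeneous vectors of the arc. -/
def pt8 (j : Fin 36) : Fin 3 → K64 := ![tb j, tb j * tp j, tb j * tf j]

def D8 (i j k : Fin 36) : K64 :=
  (tp j + tp i) * (tf k + tf i) + (tp k + tp i) * (tf j + tf i)

lemma D8_lt : ∀ i j k : Fin 36, i < j → j < k → D8 i j k ≠ 0 := by
  decide +kernel

lemma two64 : (2 : K64) = 0 := by decide +kernel

lemma exists_inv64 : ∀ z : K64, z ≠ 0 → ∃ w, z * w = 1 := by
  have h : ∀ a b : Fin 8, (⟨⟨a⟩, ⟨b⟩⟩ : K64) ≠ 0 →
      ∃ c d : Fin 8, (⟨⟨a⟩, ⟨b⟩⟩ : K64) * ⟨⟨c⟩, ⟨d⟩⟩ = 1 := by decide +kernel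
  intro z hz
  obtain ⟨c, d, hcd⟩ := h z.re.v z.im.v hz
  exact ⟨⟨⟨c⟩, ⟨d⟩⟩, hcd⟩

lemma D8_swap (i j k : Fin 36) : D8 i j k = D8 j i k := by
  unfold D8
  linear_combination (tp i * tf i - tp j * tf j) * two64

lemma D8_swap' (i j k : Fin 36) : D8 i j k = D8 i k j := by
  unfold D8
  ring

lemma D8_ne (i j k : Fin 36) (hij : i ≠ j) (hik : i ≠ k) (hjk : j ≠ k) : D8 i j k ≠ 0 := by
  rcases lt_or_gt_of_ne hij with h1 | h1 <;> rcases lt_or_gt_of_ne hik with h2 | h2 <;>
    rcases lt_or_gt_of_ne hjk with h3 | h3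
  · exact D8_lt i j k h1 h3
  · rw [D8_swap']; exact D8_lt i k j h2 h3
  · exact absurd (h1.trans h3) (not_lt.mpr h2.le)
  · rw [D8_swap', D8_swap]; exact D8_lt k i j h2 h1
  · rw [D8_swap]; exact D8_lt j i k h1 h2
  · exact absurd (h1.trans h2) (not_lt.mpr h3.le)
  · rw [D8_swap, D8_swap']; exact D8_lt j k i h3 h2
  · rw [D8_swap, D8_swap', D8_swap]; exact D8_lt k j i h3 h1

lemma pt8_det (e : Fin 3 → Fin 36) (he : Function.Injective e) :
    IsUnit (Matrix.of fun p c => pt8 (e c) p : Matrix (Fin 3) (Fin 3) K64).det := by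
  have n01 : e 0 ≠ e 1 := he.ne (by decide)
  have n02 : e 0 ≠ e 2 := he.ne (by decide)
  have n12 : e 1 ≠ e 2 := he.ne (by decide)
  have htb : ∀ j : Fin 36, tb j ≠ 0 := by decide +kernel
  have hu : ∀ z : K64, z ≠ 0 → IsUnit z := fun z hz => by
    obtain ⟨w, hw⟩ := exists_inv64 z hz
    exact IsUnit.of_mul_eq_one w hw
  have h1 : (Matrix.of fun p c => pt8 (e c) p : Matrix (Fin 3) (Fin 3) K64).det
      = tb (e 0) * tb (e 1) * tb (e 2) * D8 (e 0) (e 1) (e 2) := by
    rw [Matrix.det_fin_three]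
    simp only [pt8, D8, Matrix.of_apply, Matrix.cons_val_zero, Matrix.cons_val_one,
      Matrix.cons_val]
    linear_combination (- tb (e 0) * tb (e 1) * tb (e 2)) * (tp (e 0) * tf (e 2)
      + tp (e 1) * tf (e 0) + tp (e 2) * tf (e 1) + tp (e 0) * tf (e 0)) * two64
  rw [h1]
  exact (((hu _ (htb _)).mul (hu _ (htb _))).mul (hu _ (htb _))).mul
    (hu _ (D8_ne _ _ _ n01 n02 n12))

/-- The rows defining the repair matrices. -/
def lc (c : Bool) (r : Fin 2) (p : Fin 3) : K64 :=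
  dec64 (cond c (4107464768 >>> (6 * (3 * r.val + p.val)))
    (40352616565 >>> (6 * (3 * r.val + p.val))))

/-- The repair matrices. -/
def M8 (c : Bool) : Matrix (Fin 2) (Fin 3 × Fin 2) K8 :=
  Matrix.of fun r p => (lc c r p.1 * (if p.2 = 0 then 1 else ⟨0, 1⟩)).im

/-- The class of a node. -/
def c8 (j : Fin 36) : Bool := decide (18 ≤ j.val)

lemma M8_col : ∀ j : Fin 36, ∀ r, (M8 (c8 j) * blk (pt8 j)) r 0 = 0 := by
  decide +kernel

lemma M8_det : ∀ j : Fin 36, (M8 (!c8 j) * blk (pt8 j)) 0 0 * (M8 (!c8 j) * blk (pt8 j)) 1 1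
    - (M8 (!c8 j) * blk (pt8 j)) 0 1 * (M8 (!c8 j) * blk (pt8 j)) 1 0 ≠ 0 := by
  decide +kernel

lemma c8_sum : ∀ i : Fin 36, ∑ j ∈ Finset.univ.erase i, (if c8 j = !c8 i then 1 else 2) = 52 := by
  decide +kernel

lemma rdata8 : RData K8 (Fin 36) 52 (fun j => blk (pt8 j)) where
  mds := fun e he => isUnit_blk pt8 e (pt8_det e he)
  rep := fun i => by
    refine ⟨M8 (!c8 i), ?_, ?_⟩
    · rw [Matrix.isUnit_iff_isUnit_det, Matrix.det_fin_two]
      obtain ⟨w, hw⟩ := K8.exists_inv _ (M8_det i)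
      exact IsUnit.of_mul_eq_one w hw
    · rw [← c8_sum i]
      refine Finset.sum_le_sum fun j _ => ?_
      split_ifs with h
      · apply nz_le_one
        rw [← h]
        exact M8_col j
      · exact nz_le _

lemma exists_hom_of_card (K F : Type*) [Field K] [Fintype K] [Field F] [Fintype F]
    (h : Fintype.card K = Fintype.card F) : ∃ f : K →+* F, Function.Injective f :=
  ⟨(FiniteField.ringEquivOfCardEq h : K ≃+* F), (FiniteField.ringEquivOfCardEq h).injective⟩

lemma exists_hom8 (F : Type*) [Field F] [Fintype F] (hF : Fintype.card F = 8) :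
    ∃ f : K8 →+* F, Function.Injective f := by
  have h : Fintype.card K8 = Fintype.card F := by rw [hF]; decide
  exact @exists_hom_of_card K8 F K8.fieldK8 _ _ _ h

theorem eight {F : Type*} [Field F] [Fintype F] (hF : Fintype.card F = 8) :
    ∃ n, 3 < n ∧ ∃ H : Fin n → Matrix (Fin 3 × Fin 2) (Fin 2) F, Attained n H := by
  obtain ⟨f, hf⟩ := exists_hom8 F hF
  refine ⟨Fintype.card (Fin 36), by simp, (rdata8.map f hf).attained ?_⟩
  rw [hF]
  simp

end Pool.Agent.Lib_MP_e76747
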