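import Mathlib

/-! # Choice of parameters in a finite field of characteristic two -/

namespace Pool.Agent.Lib_MP_e76747

section param

variable {F : Type*} [Field F]

/-- The Artin–Schreier predicate `x = w ^ 2 + w`. -/
def AS (x : F) : Prop := ∃ w : F, w ^ 2 + w = x

lemma AS.add [CharP F 2] {x y : F} (hx : AS x) (hy : AS y) : AS (x + y) := by
  obtain ⟨u, rfl⟩ := hx
  obtain ⟨v, rfl⟩ := hy
  refine ⟨u + v, ?_⟩
  have h2 : (2 : F) = 0 := CharTwo.two_eq_zero
  linear_combination u * v * h2

variable [Fintype F] [CharP F 2]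

/-- A linear functional with kernel `AS`. -/
lemma exists_functional [Algebra (ZMod 2) F] :
    ∃ t : Module.Dual (ZMod 2) F, t ≠ 0 ∧ (∀ x, t x = 0 ↔ AS x) ∧
      2 * Nat.card (LinearMap.ker t) = Fintype.card F := by
  classical
  have h2 : (2 : F) = 0 := CharTwo.two_eq_zero
  haveI : FiniteDimensional (ZMod 2) F := Module.Finite.of_finite
  let φ : F →ₗ[ZMod 2] F :=
    { toFun := fun w => w ^ 2 + w
      map_add' := fun u v => by linear_combination u * v * h2
      map_smul' := fun c u => by
        have hc : c ^ 2 = c := by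
          revert c; decide
        simp only [RingHom.id_apply, Algebra.smul_def, mul_pow, ← map_pow, hc]
        ring }
  have hφ : ∀ w, φ w = w ^ 2 + w := fun w => rfl
  have hker : LinearMap.ker φ = Submodule.span (ZMod 2) {(1 : F)} := by
    ext w
    rw [LinearMap.mem_ker, hφ, Submodule.mem_span_singleton]
    constructor
    · intro h
      have h3 : w * (w + 1) = 0 := by linear_combination h
      rcases mul_eq_zero.mp h3 with h4 | h4
      · exact ⟨0, by simp [h4]⟩
      · refine ⟨1, ?_⟩
        rw [one_smul]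
        linear_combination h4 - w * h2
    · rintro ⟨c, rfl⟩
      have hc : c ^ 2 = c := by
        revert c; decide
      rw [Algebra.smul_def, mul_one, ← map_pow, hc]
      linear_combination (algebraMap (ZMod 2) F c) * h2
  have h1 := LinearMap.finrank_range_add_finrank_ker φ
  have hk1 : Module.finrank (ZMod 2) (LinearMap.ker φ) = 1 := by
    rw [hker]
    exact finrank_span_singleton one_ne_zero
  have hlt : LinearMap.range φ < ⊤ := by
    rw [lt_top_iff_ne_top]
    intro h
    rw [h, finrank_top] at h1
    omega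
  obtain ⟨t, ht0, hle⟩ := Submodule.exists_le_ker_of_lt_top _ hlt
  have h4 := Module.Dual.finrank_ker_add_one_of_ne_zero ht0
  have heq : LinearMap.range φ = LinearMap.ker t :=
    Submodule.eq_of_le_of_finrank_eq hle (by omega)
  refine ⟨t, ht0, ?_, ?_⟩
  · intro x
    rw [← LinearMap.mem_ker, ← heq]
    rfl
  · have h5 : Nat.card (LinearMap.ker t) = 2 ^ Module.finrank (ZMod 2) (LinearMap.ker t) := by
      have := Module.card_eq_pow_finrank (K := ZMod 2) (V := LinearMap.ker t)
      rw [Nat.card_eq_fintype_card, this]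
      simp
    have h6 : Fintype.card F = 2 ^ Module.finrank (ZMod 2) F := by
      have := Module.card_eq_pow_finrank (K := ZMod 2) (V := F)
      rw [this]
      simp
    rw [h5, h6, ← h4, pow_succ, mul_comm]

/-- Existence of the parameters. -/
lemma exists_param (hF : 16 ≤ Fintype.card F) :
    ∃ δ x : F, δ ≠ 0 ∧ δ + 1 ≠ 0 ∧ x ≠ 0 ∧ AS x ∧ AS δ ∧ AS (x * (δ ^ 2 / (1 + δ) ^ 2)) ∧
      ¬ AS (x * δ) := by
  classical
  let _ : Algebra (ZMod 2) F := ZMod.algebra F 2
  have h2 : (2 : F) = 0 := CharTwo.two_eq_zero
  obtain ⟨t, ht0, htAS, htcard⟩ := exists_functional (F := F)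
  -- choice of δ
  have hδ : ∃ δ : F, AS δ ∧ δ ≠ 0 ∧ δ + 1 ≠ 0 ∧ δ ^ 2 + δ + 1 ≠ 0 ∧ δ ^ 3 + δ + 1 ≠ 0 := by
    by_contra hcon
    push Not at hcon
    let P : Polynomial F := Polynomial.X * (Polynomial.X + 1) *
      (Polynomial.X ^ 2 + Polynomial.X + 1) * (Polynomial.X ^ 3 + Polynomial.X + 1)
    have hP : P = Polynomial.X * (Polynomial.X + 1) *
      (Polynomial.X ^ 2 + Polynomial.X + 1) * (Polynomial.X ^ 3 + Polynomial.X + 1) := rfl
    have hdeg : P.natDegree ≤ 7 := by
      rw [hP]
      compute_degree
    have hP0 : P ≠ 0 := by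
      have e1 : (Polynomial.X : Polynomial F).Monic := Polynomial.monic_X
      have e2 : (Polynomial.X + 1 : Polynomial F).Monic := by monicity!
      have e3 : (Polynomial.X ^ 2 + Polynomial.X + 1 : Polynomial F).Monic := by monicity!
      have e4 : (Polynomial.X ^ 3 + Polynomial.X + 1 : Polynomial F).Monic := by monicity!
      exact (((e1.mul e2).mul e3).mul e4).ne_zero
    have hsub : ∀ δ : F, AS δ → δ ∈ P.roots.toFinset := by
      intro δ h
      rw [Multiset.mem_toFinset, Polynomial.mem_roots hP0, Polynomial.IsRoot, hP]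
      simp only [Polynomial.eval_mul, Polynomial.eval_add, Polynomial.eval_pow, Polynomial.eval_X,
        Polynomial.eval_one]
      by_cases a1 : δ = 0
      · simp [a1]
      by_cases a2 : δ + 1 = 0
      · simp [a2]
      by_cases a3 : δ ^ 2 + δ + 1 = 0
      · simp [a3]
      have a4 := hcon δ h a1 a2 a3
      simp [a4]
    have hc : Nat.card (LinearMap.ker t) ≤ 7 := by
      have e5 : Nat.card (LinearMap.ker t) = (Finset.univ.filter fun z : F => AS z).card := by
        rw [Nat.card_eq_fintype_card, Fintype.card_subtype]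
        apply congrArg Finset.card
        apply Finset.filter_congr
        intro z _
        rw [LinearMap.mem_ker]
        exact htAS z
      rw [e5]
      calc _ ≤ P.roots.toFinset.card := by
            apply Finset.card_le_card
            intro z hz
            exact hsub z (Finset.mem_filter.mp hz).2
        _ ≤ Multiset.card P.roots := Multiset.toFinset_card_le _
        _ ≤ P.natDegree := Polynomial.card_roots' P
        _ ≤ 7 := hdeg
    omega
  obtain ⟨δ, hδAS, hδ0, hδ1, hδ2, hδ3⟩ := hδ
  have hδ1' : 1 + δ ≠ 0 := by rwa [add_comm]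
  set u : F := δ ^ 2 / (1 + δ) ^ 2 with hu
  have hu' : u * (1 + δ) ^ 2 = δ ^ 2 := by
    rw [hu]; field_simp
  -- choice of x
  let L : F → Module.Dual (ZMod 2) F := fun y => t ∘ₗ LinearMap.mulRight (ZMod 2) y
  have hL : ∀ y x, L y x = t (x * y) := fun y x => rfl
  have hx : ∃ x : F, t x = 0 ∧ t (x * u) = 0 ∧ t (x * δ) ≠ 0 := by
    by_contra hcon
    push Not at hcon
    have hspan : L δ ∈ Submodule.span (ZMod 2) (Set.range ![L 1, L u]) := by
      apply mem_span_of_iInf_ker_le_ker
      intro x hx
      rw [Submodule.mem_iInf] at hx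
      have e1 := hx 0
      have e2 := hx 1
      simp only [Matrix.cons_val_zero, Matrix.cons_val_one, LinearMap.mem_ker, hL, mul_one]
        at e1 e2
      rw [LinearMap.mem_ker, hL]
      exact hcon x e1 e2
    have hrange : Set.range ![L 1, L u] = {L 1, L u} := by
      ext z
      simp [or_comm]
    rw [hrange, Submodule.mem_span_pair] at hspan
    obtain ⟨a, b, hab⟩ := hspan
    have hzero : ∀ x, t (x * (δ - (algebraMap (ZMod 2) F a + algebraMap (ZMod 2) F b * u))) = 0 := by
      intro x
      have e1 : x * (δ - (algebraMap (ZMod 2) F a + algebraMap (ZMod 2) F b * u))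
          = x * δ - (a • (x * 1) + b • (x * u)) := by
        simp only [Algebra.smul_def]
        ring
      rw [e1, map_sub, map_add, map_smul, map_smul, ← hL, ← hL, ← hL, ← hab]
      simp
    have hne : δ - (algebraMap (ZMod 2) F a + algebraMap (ZMod 2) F b * u) ≠ 0 := by
      have hall : ∀ c : ZMod 2, c = 0 ∨ c = 1 := by decide
      have hall' : ∀ c : ZMod 2, algebraMap (ZMod 2) F c = 0 ∨ algebraMap (ZMod 2) F c = 1 := by
        intro c
        rcases hall c with rfl | rfl
        · left; simp
        · right; simp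
      have ha := hall' a
      have hb := hall' b
      intro h
      rcases ha with ha | ha <;> rcases hb with hb | hb <;> rw [ha, hb] at h
      · apply hδ0
        linear_combination h
      · -- δ = u
        have e1 : δ * (δ ^ 2 + δ + 1) = 0 := by
          linear_combination (1 + δ) ^ 2 * h + hu' + (0 : F) * h2
        rcases mul_eq_zero.mp e1 with e2 | e2
        · exact hδ0 e2
        · exact hδ2 e2
      · apply hδ1
        linear_combination h + h2
      · -- δ = 1 + u
        apply hδ3
        linear_combination (1 + δ) ^ 2 * h + hu' + (1 + δ) * h2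
    apply ht0
    ext x
    have := hzero (x / (δ - (algebraMap (ZMod 2) F a + algebraMap (ZMod 2) F b * u)))
    rw [div_mul_cancel₀ _ hne] at this
    simpa using this
  obtain ⟨x, hx1, hx2, hx3⟩ := hx
  refine ⟨δ, x, hδ0, hδ1, ?_, (htAS x).mp hx1, hδAS, (htAS _).mp hx2, fun h => hx3 ((htAS _).mpr h)⟩
  rintro rfl
  apply hx3
  simp

end param

end Pool.Agent.Lib_MP_e76747
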