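import Pool.Agent.Lib_MP_e76747.Geo
import Pool.Agent.Lib_MP_e76747.Param
import Pool.Agent.Lib_MP_e76747.Conic

/-! # The conic family in characteristic two -/

namespace Pool.Agent.Lib_MP_e76747

open Matrix

section general

variable {F : Type*} [Field F]

lemma C_norm' {d : F} (z : QuadraticAlgebra F d 1) :
    (QuadraticAlgebra.C (QuadraticAlgebra.norm z) : QuadraticAlgebra F d 1) = z * star z := by
  ext
  · simp [QuadraticAlgebra.norm_def]; ring
  · simp [QuadraticAlgebra.norm_def]; ring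

lemma star_C' {d : F} (c : F) :
    star (QuadraticAlgebra.C c : QuadraticAlgebra F d 1) = QuadraticAlgebra.C c := by
  ext <;> simp

end general

section count

variable {F : Type*} [Field F] [Fintype F] {d : F} [Fact (∀ r : F, r ^ 2 ≠ d + 1 * r)]

noncomputable instance : Fintype (QuadraticAlgebra F d 1) :=
  Fintype.ofEquiv _ (QuadraticAlgebra.equivProd d 1).symm

lemma card_norm_one :
    Fintype.card F + 1 ≤ Nat.card {z : QuadraticAlgebra F d 1 // QuadraticAlgebra.norm z = 1} := by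
  classical
  set q := Fintype.card F with hq
  have hq1 : 1 < q := Fintype.one_lt_card
  let E := QuadraticAlgebra F d 1
  let N : Eˣ →* Fˣ := Units.map (QuadraticAlgebra.norm (a := d) (b := 1))
  have h1 : Nat.card N.ker * N.ker.index = Nat.card Eˣ := Subgroup.card_mul_index _
  rw [Subgroup.index_ker] at h1
  have h2 : Nat.card N.range ≤ Nat.card Fˣ := Nat.card_le_card_of_injective _ N.range.subtype_injective
  have h3 : Nat.card Fˣ = q - 1 := by
    rw [Nat.card_eq_fintype_card, Fintype.card_units]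
  have h4 : Nat.card Eˣ = q ^ 2 - 1 := by
    rw [Nat.card_eq_fintype_card, Fintype.card_units]
    have : Fintype.card E = q ^ 2 := by
      rw [Fintype.card_congr (QuadraticAlgebra.equivProd d 1), Fintype.card_prod, sq]
    rw [this]
  have h5 : Nat.card N.ker ≤ Nat.card {z : E // QuadraticAlgebra.norm z = 1} := by
    apply Nat.card_le_card_of_injective
      (fun u : N.ker => (⟨(u.1 : E), by
        have := u.2
        rw [MonoidHom.mem_ker] at this
        have := congrArg Units.val this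
        simpa [N] using this⟩ : {z : E // QuadraticAlgebra.norm z = 1}))
    intro u v huv
    apply Subtype.ext
    apply Units.ext
    exact congrArg Subtype.val huv
  refine le_trans ?_ h5
  obtain ⟨p, hp⟩ : ∃ p, q = p + 1 := ⟨q - 1, by omega⟩
  have hp0 : 0 < p := by omega
  rw [h3, hp] at h2
  rw [h4, hp] at h1
  have e1 : (p + 1) ^ 2 - 1 = (p + 2) * p := by
    have : (p + 1) ^ 2 = (p + 2) * p + 1 := by ring
    omega
  rw [e1] at h1
  simp only [Nat.add_sub_cancel] at h2
  rw [hp]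
  have h6 : (p + 2) * p ≤ Nat.card N.ker * p := by
    rw [← h1]
    exact Nat.mul_le_mul_left _ h2
  exact Nat.le_of_mul_le_mul_right h6 hp0

end count

section eps

variable {F : Type*} [Field F] [CharP F 2] {d τ : F}

lemma eps_norm (hτ : τ ^ 2 * d = 1) :
    QuadraticAlgebra.norm (algebraMap F (QuadraticAlgebra F d 1) τ * QuadraticAlgebra.omega)
      = 1 := by
  rw [map_mul, QuadraticAlgebra.norm_algebraMap, QuadraticAlgebra.norm_def]
  simp
  linear_combination (norm := (ring_nf; try reduce_mod_char!)) hτ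

omit [CharP F 2] in
lemma eps_tr :
    algebraMap F (QuadraticAlgebra F d 1) τ * QuadraticAlgebra.omega +
      star (algebraMap F (QuadraticAlgebra F d 1) τ * QuadraticAlgebra.omega)
      = algebraMap F (QuadraticAlgebra F d 1) τ := by
  ext <;> simp [QuadraticAlgebra.algebraMap_eq]

end eps

section family

variable {F : Type*} [Field F] [Fintype F] [CharP F 2]

theorem family (g h τ x d : F) (hτ : τ ^ 2 * d = 1) (hd : ¬ AS d) (hg0 : g ≠ 0) (hg1 : 1 + g ≠ 0)
    (hh0 : h ≠ 0) (hh1 : 1 + h ≠ 0) (hx : x * (1 + h ^ 2) ^ 2 = h ^ 2)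
    (c1 : AS ((x + τ * x ^ 2) / g ^ 2)) (c2 : AS ((x + τ * x ^ 2) * g ^ 2))
    (c3 : AS (τ * g ^ 2 * x / (1 + g) ^ 4)) :
    ∃ n, 3 < n ∧ ∃ H : Fin n → Matrix (Fin 3 × Fin 2) (Fin 2) F, Attained n H := by
  classical
  have h2 : (2 : F) = 0 := CharTwo.two_eq_zero
  have hfact : Fact (∀ r : F, r ^ 2 ≠ d + 1 * r) := ⟨fun r hr => hd ⟨r, by
    linear_combination (norm := (ring_nf; try reduce_mod_char!)) hr⟩⟩
  let E := QuadraticAlgebra F d 1
  have hchar : CharP E 2 :=
    charP_of_injective_ringHom (f := algebraMap F E) (algebraMap F E).injective 2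
  have hτ0 : τ ≠ 0 := by
    rintro rfl
    simp at hτ
  let C : F →+* E := algebraMap F E
  let N : E →* F := QuadraticAlgebra.norm
  have hNC : ∀ c, N (C c) = c ^ 2 := fun c => QuadraticAlgebra.norm_algebraMap c
  let σ : E →+* E := starRingEnd E
  have hσ : ∀ z, σ z = star z := fun z => rfl
  have hNσ : ∀ z, N (σ z) = N z := fun z => QuadraticAlgebra.norm_star z
  have hσσ : ∀ z, σ (σ z) = z := fun z => star_star z
  have hC : ∀ c, σ (C c) = C c := fun c => star_C' c
  have hC0 : ∀ {c}, c ≠ 0 → C c ≠ 0 := fun {c} h => by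
    rwa [Ne, map_eq_zero_iff C C.injective]
  have hnorm : ∀ z : E, C (N z) = z * σ z := fun z => C_norm' z
  let ε : E := C τ * QuadraticAlgebra.omega
  have hNε : N ε = 1 := eps_norm hτ
  have hε : ε * σ ε = 1 := by
    rw [← hnorm, hNε, map_one]
  have hετ : ε + σ ε = C τ := eps_tr
  have hCτ0 : C τ ≠ 0 := hC0 hτ0
  have hε0 : ε ≠ 0 := left_ne_zero_of_mul_eq_one hε
  have hσε0 : σ ε ≠ 0 := right_ne_zero_of_mul_eq_one hε
  have hε1 : 1 + ε ≠ 0 := by
    intro h5
    have h6 : ε = 1 := (CharTwo.add_eq_zero.mp h5).symm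
    apply hCτ0
    rw [← hετ, h6, map_one]
    exact CharTwo.add_self_eq_zero 1
  -- the set of nodes
  let μ := {z : E // QuadraticAlgebra.norm z = 1}
  have hμ : Nat.card F + 1 ≤ Nat.card μ := by
    rw [Nat.card_eq_fintype_card (α := F)]
    exact card_norm_one
  let ι := Bool × Bool × μ
  let gt : Bool → F := fun t => cond t g 1
  let hs : Bool → F := fun s => cond s h 1
  let et : Bool → E := fun t => cond t ε 1
  let bt : Bool → E := fun t => cond t (1 + σ ε) 1
  have hgt : ∀ t, gt t ≠ 0 := by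
    intro t; cases t
    · exact one_ne_zero
    · exact hg0
  have hhs : ∀ t, hs t ≠ 0 := by
    intro t; cases t
    · exact one_ne_zero
    · exact hh0
  have het : ∀ t, et t ≠ 0 := by
    intro t; cases t
    · exact one_ne_zero
    · exact hε0
  have hbt : ∀ t, bt t ≠ 0 := by
    intro t; cases t
    · exact one_ne_zero
    · intro h5
      have h6 : σ (1 + ε) = 0 := by
        rw [map_add, map_one]; exact h5
      apply hε1
      rw [← hσσ (1 + ε), h6, map_zero]
  -- a property of bt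
  have hbtσ : ∀ t, σ (bt t) * σ (et t) = bt t := by
    intro t; cases t
    · change σ 1 * σ 1 = 1
      simp
    · change σ (1 + σ ε) * σ ε = 1 + σ ε
      rw [map_add, map_one, hσσ]
      linear_combination hε
  let z : ι → E := fun n => n.2.2.1
  have hNz : ∀ n, N (z n) = 1 := fun n => n.2.2.2
  have hz : ∀ n, z n * σ (z n) = 1 := by
    intro n
    rw [← hnorm, hNz, map_one]
  let U : ι → E := fun n => C (hs n.2.1) * z n
  let U' : ι → E := fun n => C (hs n.2.1)⁻¹ * σ (z n)
  let Y : ι → E := fun n => C (gt n.1) * U n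
  let Z : ι → E := fun n => C (gt n.1) * (et n.1 * U' n)
  let X : ι → Fin 3 → E := fun n => ![bt n.1, bt n.1 * Y n, bt n.1 * Z n]
  have hUU' : ∀ n, U n * U' n = 1 := by
    intro n
    have e : C (hs n.2.1) * C (hs n.2.1)⁻¹ = 1 := by
      rw [← map_mul, mul_inv_cancel₀ (hhs _), map_one]
    calc U n * U' n = (C (hs n.2.1) * C (hs n.2.1)⁻¹) * (z n * σ (z n)) := by
          simp only [U, U']; ring
      _ = 1 := by rw [e, hz, one_mul]
  have hUn : ∀ n, U n * σ (U n) = C (hs n.2.1 ^ 2) := by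
    intro n
    calc U n * σ (U n) = C (hs n.2.1) * C (hs n.2.1) * (z n * σ (z n)) := by
          simp only [U, map_mul, hC]; ring
      _ = _ := by rw [hz, mul_one, sq, map_mul]
  have hUn' : ∀ n, U n * σ (U n) = 1 ∨ U n * σ (U n) = C (h ^ 2) := by
    intro n
    rw [hUn]
    cases n.2.1
    · left
      change C (1 ^ 2) = 1
      rw [one_pow, map_one]
    · right; rfl
  have hU0 : ∀ n, U n ≠ 0 := fun n => left_ne_zero_of_mul_eq_one (hUU' n)
  have hY0 : ∀ n, Y n ≠ 0 := fun n => mul_ne_zero (hC0 (hgt _)) (hU0 n)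
  have hYZ : ∀ n, Y n * Z n = C (gt n.1 ^ 2) * et n.1 := by
    intro n
    calc Y n * Z n = C (gt n.1) * C (gt n.1) * et n.1 * (U n * U' n) := by
          simp only [Y, Z]; ring
      _ = _ := by rw [hUU', mul_one, sq, map_mul]
  have hh2 : 1 + h ^ 2 ≠ 0 := by
    intro h5
    have : (1 + h) ^ 2 = 0 := by
      linear_combination (norm := (ring_nf; try reduce_mod_char!)) h5
    exact hh1 (pow_eq_zero_iff two_ne_zero |>.mp this)
  have hsne : ∀ s : Bool, hs s ^ 2 ≠ hs (!s) ^ 2 := by
    intro s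
    cases s
    · change (1 : F) ^ 2 ≠ h ^ 2
      intro h5
      apply hh2
      rw [← h5]
      linear_combination h2
    · change h ^ 2 ≠ (1 : F) ^ 2
      intro h5
      apply hh2
      rw [h5]
      linear_combination h2
  have hUinj : ∀ i j, U i = U j → i.2 = j.2 := by
    intro i j hij
    have e1 : hs i.2.1 ^ 2 = hs j.2.1 ^ 2 := by
      apply C.injective
      rw [← hUn, ← hUn, hij]
    have e2 : i.2.1 = j.2.1 := by
      by_contra h5
      have h6 : j.2.1 = !i.2.1 := by
        revert h5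
        cases i.2.1 <;> cases j.2.1 <;> simp
      rw [h6] at e1
      exact hsne _ e1
    have e3 : z i = z j := by
      have : C (hs i.2.1) * z i = C (hs i.2.1) * z j := by
        calc C (hs i.2.1) * z i = U i := rfl
          _ = U j := hij
          _ = C (hs j.2.1) * z j := rfl
          _ = C (hs i.2.1) * z j := by rw [e2]
      exact mul_left_cancel₀ (hC0 (hhs _)) this
    exact Prod.ext e2 (Subtype.ext e3)
  obtain ⟨w0, hw0⟩ := c1
  obtain ⟨w2, hw2⟩ := c2
  obtain ⟨w1, hw1⟩ := c3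
  have hcond : ∀ t : Bool, C (gt t ^ 2) * et t = cond t (C g ^ 2 * ε) 1 := by
    intro t
    cases t
    · change C (1 ^ 2) * 1 = 1
      simp
    · change C (g ^ 2) * ε = C g ^ 2 * ε
      rw [map_pow]
  have hcond' : ∀ t : Bool, C (gt t) = cond t (C g) 1 := by
    intro t
    cases t
    · change C 1 = 1
      simp
    · rfl
  have hpair : ∀ i j k : ι, i ≠ j → k ≠ i → k ≠ j → i.1 = j.1 →
      Y i * Z j + Y j * Z i + (Y i * Z k + Y k * Z i) + (Y j * Z k + Y k * Z j) ≠ 0 := by
    intro i j k hij hki hkj ht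
    refine D_ne (ε := ε) (g := C g) (τ := C τ) (H := C (h ^ 2)) (x := C x) (w0 := C w0)
      (w1 := C w1) (w2 := C w2) (U := U i) (V := U j) (W := U k) (s := i.1) (t := k.1)
      σ hσσ (hC g) (hC0 hg0) ?_ hε hετ hCτ0 (hC _) (hC0 (pow_ne_zero 2 hh0)) ?_ ?_
      (hC _) ?_ (hC _) ?_ (hC _) ?_ (hUn' i) (hUn' j) (hUn' k) ?_ ?_ ?_ ?_ ?_ ?_ ?_ ?_
    · rw [← map_one C, ← map_add]
      exact hC0 hg1
    · rw [← map_one C, ← map_add]
      exact hC0 hh2
    · rw [← map_one C, ← map_add, ← map_pow, ← map_mul, hx]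
    · rw [← map_pow, ← map_add, ← map_pow, ← map_mul, ← map_pow, ← map_mul, ← map_add, hw0]
      congr 1
      field_simp
    · rw [← map_pow, ← map_add, ← map_pow, ← map_mul, ← map_pow, ← map_add, ← map_mul, hw2]
    · rw [← map_one C, ← map_pow, ← map_add, ← map_add, ← map_pow, ← map_mul, ← map_pow, ← map_mul,
        ← map_mul, hw1]
      congr 1
      field_simp
    · intro h5
      exact hij (Prod.ext ht (hUinj i j h5))
    · intro h5
      exact ⟨fun h6 => hki (Prod.ext h5.symm (hUinj k i h6)),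
        fun h6 => hkj (Prod.ext (h5.symm.trans ht) (hUinj k j h6))⟩
    · rw [← hcond']
    · rw [← hcond', ht]
    · rw [← hcond']
    · rw [hYZ, hcond]
    · rw [hYZ, hcond, ht]
    · rw [hYZ, hcond]
  have hD : ∀ e : Fin 3 → ι, Function.Injective e →
      Y (e 0) * Z (e 1) + Y (e 1) * Z (e 0) + (Y (e 0) * Z (e 2) + Y (e 2) * Z (e 0))
        + (Y (e 1) * Z (e 2) + Y (e 2) * Z (e 1)) ≠ 0 := by
    intro e he
    have n01 : e 0 ≠ e 1 := fun h => absurd (he h) (by decide)
    have n02 : e 0 ≠ e 2 := fun h => absurd (he h) (by decide)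
    have n12 : e 1 ≠ e 2 := fun h => absurd (he h) (by decide)
    have hb : (e 0).1 = (e 1).1 ∨ (e 0).1 = (e 2).1 ∨ (e 1).1 = (e 2).1 := by
      cases (e 0).1 <;> cases (e 1).1 <;> cases (e 2).1 <;> simp
    rcases hb with hb | hb | hb
    · exact hpair _ _ _ n01 n02.symm n12.symm hb
    · intro h5
      apply hpair _ _ _ n02 n01.symm n12 hb
      linear_combination h5
    · intro h5
      apply hpair _ _ _ n12 n01 n02 hb
      linear_combination h5
  have hdet : ∀ e : Fin 3 → ι, Function.Injective e →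
      IsUnit (Matrix.of fun p c => X (e c) p : Matrix (Fin 3) (Fin 3) E).det := by
    intro e he
    rw [isUnit_iff_ne_zero]
    intro h5
    have h6 : bt (e 0).1 * bt (e 1).1 * bt (e 2).1 * (Y (e 0) * Z (e 1) + Y (e 1) * Z (e 0)
        + (Y (e 0) * Z (e 2) + Y (e 2) * Z (e 0))
        + (Y (e 1) * Z (e 2) + Y (e 2) * Z (e 1))) = 0 := by
      have h22 : (2 : E) = 0 := CharTwo.two_eq_zero
      rw [Matrix.det_fin_three] at h5
      simp only [X, Matrix.of_apply, Matrix.cons_val_zero, Matrix.cons_val_one,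
        Matrix.cons_val] at h5
      linear_combination h5 + bt (e 0).1 * bt (e 1).1 * bt (e 2).1 *
        (Y (e 1) * Z (e 0) + Y (e 0) * Z (e 2) + Y (e 2) * Z (e 1)) * h22
    have h7 := (mul_eq_zero.mp h6).resolve_left
      (mul_ne_zero (mul_ne_zero (hbt _) (hbt _)) (hbt _))
    exact hD e he h7
  have hcol : ∀ (s : Bool) (j : ι), j.2.1 = s → ∀ y,
      (rm 1 (hs s)⁻¹ (hs s) * blk (X j)) y 0 = 0 := by
    intro s j hj
    apply rm_col
    have e1 : C (hs s)⁻¹ * C (hs s) = 1 := by
      rw [← map_mul, inv_mul_cancel₀ (hhs _), map_one]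
    have e2 := hbtσ j.1
    change C (hs s)⁻¹ * (bt j.1 * (C (gt j.1) * (C (hs j.2.1) * z j)))
      + C (hs s) * σ (bt j.1 * (C (gt j.1) * (et j.1 * (C (hs j.2.1)⁻¹ * σ (z j))))) = 0
    rw [hj]
    simp only [map_mul, hC, hσσ]
    calc _ = C (gt j.1) * z j * (C (hs s)⁻¹ * C (hs s)) * (bt j.1 + σ (bt j.1) * σ (et j.1)) := by
          ring
      _ = 0 := by rw [e2, CharTwo.add_self_eq_zero, mul_zero]
  have hunit : ∀ i : ι, IsUnit (rm 1 (hs (!i.2.1))⁻¹ (hs (!i.2.1)) * blk (X i)) := by
    intro i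
    rw [Matrix.isUnit_iff_isUnit_det, isUnit_iff_ne_zero, det_rm_mul_blk]
    set w := hs (!i.2.1) with hw
    have hw0' : w ≠ 0 := hhs _
    have hne := hsne i.2.1
    rw [← hw] at hne
    set v := hs i.2.1 with hv
    have hv0 : v ≠ 0 := hhs _
    have e1 : QuadraticAlgebra.norm (X i 1) = N (bt i.1) * (gt i.1 ^ 2 * v ^ 2) := by
      change N (bt i.1 * (C (gt i.1) * (C v * z i))) = _
      rw [map_mul, map_mul, map_mul, hNC, hNC, hNz, mul_one]
    have e2 : QuadraticAlgebra.norm (X i 2) = N (bt i.1) * (gt i.1 ^ 2 * v⁻¹ ^ 2) := by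
      change N (bt i.1 * (C (gt i.1) * (et i.1 * (C v⁻¹ * σ (z i))))) = _
      have e3 : N (et i.1) = 1 := by
        cases i.1
        · exact map_one N
        · exact hNε
      rw [map_mul, map_mul, map_mul, map_mul, hNC, hNC, hNσ, hNz, mul_one, e3, one_mul]
    have e4 : N (bt i.1) ≠ 0 := by
      intro h5
      have := hnorm (bt i.1)
      rw [h5, map_zero] at this
      rcases mul_eq_zero.mp this.symm with h6 | h6
      · exact hbt _ h6
      · apply hbt i.1
        rw [← hσσ (bt i.1), h6, map_zero]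
    rw [e1, e2]
    intro h5
    have h6 : N (bt i.1) * gt i.1 ^ 2 * (v ^ 4 - w ^ 4) = 0 := by
      have h7 : w⁻¹ ^ 2 * (N (bt i.1) * (gt i.1 ^ 2 * v ^ 2))
          - w ^ 2 * (N (bt i.1) * (gt i.1 ^ 2 * v⁻¹ ^ 2)) =
          N (bt i.1) * gt i.1 ^ 2 * (v ^ 4 - w ^ 4) / (v ^ 2 * w ^ 2) := by
        field_simp
      rw [h7] at h5
      have h8 : v ^ 2 * w ^ 2 ≠ 0 := mul_ne_zero (pow_ne_zero 2 hv0) (pow_ne_zero 2 hw0')
      rw [div_eq_zero_iff] at h5
      exact h5.resolve_right h8
    have h7 := (mul_eq_zero.mp h6).resolve_left (mul_ne_zero e4 (pow_ne_zero 2 (hgt _)))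
    have h8 : (v ^ 2 - w ^ 2) ^ 2 = 0 := by
      linear_combination (norm := (ring_nf; try reduce_mod_char!)) h7
    have h9 : v ^ 2 - w ^ 2 = 0 := pow_eq_zero_iff two_ne_zero |>.mp h8
    exact hne (sub_eq_zero.mp h9)
  have hcard : Fintype.card ι = 4 * Nat.card μ := by
    rw [Nat.card_eq_fintype_card]
    simp only [ι, Fintype.card_prod, Fintype.card_bool]
    ring
  have hR : RData F ι (6 * Nat.card μ - 2) (fun j => blk (X j)) := by
    constructor
    · intro e he
      exact isUnit_blk X e (hdet e he)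
    · intro i
      refine ⟨rm 1 (hs (!i.2.1))⁻¹ (hs (!i.2.1)), hunit i, ?_⟩
      have h5 : ∀ j, nz (rm 1 (hs (!i.2.1))⁻¹ (hs (!i.2.1)) * blk (X j))
          ≤ if j.2.1 = i.2.1 then 2 else 1 := by
        intro j
        split_ifs with h6
        · exact nz_le _
        · apply nz_le_one
          apply hcol
          revert h6
          cases i.2.1 <;> cases j.2.1 <;> simp
      have h6 : (2 : ℕ) + ∑ j ∈ Finset.univ.erase i, (if j.2.1 = i.2.1 then 2 else 1)
          = 6 * Nat.card μ := by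
        have h7 := Finset.add_sum_erase Finset.univ
          (fun j : ι => if j.2.1 = i.2.1 then 2 else 1) (Finset.mem_univ i)
        simp only [if_true] at h7
        rw [h7, Nat.card_eq_fintype_card]
        simp only [ι, Fintype.sum_prod_type, Fintype.sum_bool]
        cases i.2.1 <;> simp <;> ring
      have h8 : ∑ j ∈ Finset.univ.erase i,
          nz (rm 1 (hs (!i.2.1))⁻¹ (hs (!i.2.1)) * blk (X j)) ≤
          ∑ j ∈ Finset.univ.erase i, (if j.2.1 = i.2.1 then 2 else 1) :=
        Finset.sum_le_sum fun j _ => h5 j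
      omega
  have hq : Fintype.card F = Nat.card F := (Nat.card_eq_fintype_card).symm
  have hq1 : 1 < Fintype.card F := Fintype.one_lt_card
  refine ⟨Fintype.card ι, by omega, hR.attained ?_⟩
  omega

/-- The construction for all even `q ≥ 16`. -/
theorem large (hF : 16 ≤ Fintype.card F) :
    ∃ n, 3 < n ∧ ∃ H : Fin n → Matrix (Fin 3 × Fin 2) (Fin 2) F, Attained n H := by
  have h2 : (2 : F) = 0 := CharTwo.two_eq_zero
  have hsq : ∀ y : F, ∃ v : F, v ^ 2 = y := by
    have h3 : Function.Surjective (frobenius F 2) :=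
      Finite.injective_iff_surjective.mp (frobenius F 2).injective
    intro y
    obtain ⟨v, hv⟩ := h3 y
    exact ⟨v, by rw [← hv, frobenius_def]⟩
  obtain ⟨δ, x, hδ0, hδ1, hx0, hASx, hASδ, hAS3, hAS4⟩ := exists_param hF
  have hδ1' : 1 + δ ≠ 0 := by rwa [add_comm]
  obtain ⟨g, hg⟩ := hsq ((1 + δ) / δ)
  obtain ⟨w0, hw0⟩ := hASx
  obtain ⟨h, hh⟩ := hsq (w0 ^ 2 / x)
  have hw00 : w0 ≠ 0 := by
    rintro rfl
    apply hx0
    rw [← hw0]; ring
  have hx1 : x + w0 ^ 2 = w0 := by
    rw [← hw0]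
    linear_combination w0 ^ 2 * h2
  have hg2 : 1 + g ^ 2 = 1 / δ := by
    rw [hg]
    field_simp
    linear_combination δ * h2
  have hgx : x + 1 / (x * (1 + δ)) * x ^ 2 = x * δ / (1 + δ) := by
    field_simp
    linear_combination h2
  apply family g h (1 / (x * (1 + δ))) x ((x * (1 + δ)) ^ 2)
  · field_simp
  · rintro ⟨w, hw⟩
    obtain ⟨v, rfl⟩ := hsq w
    have h3 : (v ^ 2 + v + x * (1 + δ)) ^ 2 = 0 := by
      linear_combination (norm := (ring_nf; try reduce_mod_char!)) hw
    have h4 : v ^ 2 + v + x * (1 + δ) = 0 := pow_eq_zero_iff two_ne_zero |>.mp h3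
    apply hAS4
    have h5 : AS (x * (1 + δ)) := ⟨v, CharTwo.add_eq_zero.mp h4⟩
    have h6 : x * δ = x * (1 + δ) + x := by
      linear_combination (norm := (ring_nf; try reduce_mod_char!)) (0 : F) * h3
    rw [h6]
    exact h5.add ⟨w0, hw0⟩
  · rintro rfl
    rw [zero_pow two_ne_zero] at hg
    rcases div_eq_zero_iff.mp hg.symm with h5 | h5
    · exact hδ1' h5
    · exact hδ0 h5
  · intro h5
    have h6 : 1 / δ = 0 := by
      rw [← hg2]
      have : 1 + g ^ 2 = (1 + g) ^ 2 := by
        linear_combination (norm := (ring_nf; try reduce_mod_char!)) (0 : F) * h5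
      rw [this, h5, zero_pow two_ne_zero]
    exact (one_div_ne_zero hδ0) h6
  · rintro rfl
    rw [zero_pow two_ne_zero] at hh
    rcases div_eq_zero_iff.mp hh.symm with h5 | h5
    · exact hw00 (pow_eq_zero_iff two_ne_zero |>.mp h5)
    · exact hx0 h5
  · intro h5
    have h6 : h = 1 := (CharTwo.add_eq_zero.mp h5).symm
    rw [h6, one_pow, eq_div_iff hx0, one_mul] at hh
    apply hw00
    rw [← hx1, hh]
    linear_combination w0 ^ 2 * h2
  · have h5 : 1 + h ^ 2 = w0 / x := by
      rw [hh]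
      field_simp
      exact hx1
    rw [h5, hh]
    field_simp
  · have h5 : (x + 1 / (x * (1 + δ)) * x ^ 2) / g ^ 2 = x * (δ ^ 2 / (1 + δ) ^ 2) := by
      rw [hgx, hg]
      field_simp
    rw [h5]
    exact hAS3
  · have h5 : (x + 1 / (x * (1 + δ)) * x ^ 2) * g ^ 2 = x := by
      rw [hgx, hg]
      field_simp
    rw [h5]
    exact ⟨w0, hw0⟩
  · have h5 : 1 / (x * (1 + δ)) * g ^ 2 * x / (1 + g) ^ 4 = δ := by
      have h6 : (1 + g) ^ 4 = (1 + g ^ 2) ^ 2 := by
        linear_combination (norm := (ring_nf; try reduce_mod_char!)) (0 : F) * h2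
      rw [h6, hg2, hg]
      field_simp
    rw [h5]
    exact hASδ

end family

end Pool.Agent.Lib_MP_e76747
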