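import Pool.Agent.Lib_MP_e76747.Geo

/-! # The case `q = 4` -/

namespace Pool.Agent.Lib_MP_e76747

open Matrix

namespace Four

/-- Concrete field with four elements (used only inside the proof). -/
structure K4 where
  v : Fin 4
deriving DecidableEq

namespace K4
def equiv : K4 ≃ Fin 4 := ⟨K4.v, K4.mk, fun _ => rfl, fun _ => rfl⟩
instance : Fintype K4 := Fintype.ofEquiv _ equiv.symm
instance : Add K4 := ⟨fun a b => ⟨Fin.ofNat 4 (a.v.val ^^^ b.v.val)⟩⟩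
instance : Mul K4 := ⟨fun a b => ⟨Fin.ofNat 4 (2625168384 >>> (8 * a.v.val + 2 * b.v.val))⟩⟩
instance : Zero K4 := ⟨⟨0⟩⟩
instance : One K4 := ⟨⟨1⟩⟩
instance : Neg K4 := ⟨id⟩

lemma forall_iff {p : K4 → Prop} : (∀ x, p x) ↔ ∀ i : Fin 4, p ⟨i⟩ :=
  ⟨fun h i => h ⟨i⟩, fun h x => h x.v⟩

instance : CommRing K4 where
  add_assoc := by simp only [forall_iff]; decide
  zero_add := by simp only [forall_iff]; decide
  add_zero := by simp only [forall_iff]; decide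
  add_comm := by simp only [forall_iff]; decide
  left_distrib := by simp only [forall_iff]; decide
  right_distrib := by simp only [forall_iff]; decide
  zero_mul := by simp only [forall_iff]; decide
  mul_zero := by simp only [forall_iff]; decide
  mul_assoc := by simp only [forall_iff]; decide
  one_mul := by simp only [forall_iff]; decide
  mul_one := by simp only [forall_iff]; decide
  neg_add_cancel := by simp only [forall_iff]; decide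
  mul_comm := by simp only [forall_iff]; decide
  nsmul := nsmulRec
  zsmul := zsmulRec

instance : Nontrivial K4 := ⟨⟨0, 1, by decide⟩⟩

lemma exists_inv : ∀ a : K4, a ≠ 0 → ∃ b, a * b = 1 := by
  simp only [forall_iff]; decide

/-- The field structure, kept out of instance search. -/
@[reducible] noncomputable def fieldK4 : Field K4 :=
  IsField.toField ⟨⟨0, 1, by decide⟩, mul_comm, fun {a} ha => exists_inv a ha⟩

end K4

/-- Concrete ring with sixteen elements (used only inside the proof). -/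
structure K16 where
  v : Fin 16
deriving DecidableEq

namespace K16
def equiv : K16 ≃ Fin 16 := ⟨K16.v, K16.mk, fun _ => rfl, fun _ => rfl⟩
instance : Fintype K16 := Fintype.ofEquiv _ equiv.symm
instance : Add K16 := ⟨fun a b => ⟨Fin.ofNat 16 (a.v.val ^^^ b.v.val)⟩⟩
instance : Mul K16 := ⟨fun a b => ⟨Fin.ofNat 16
  (105869934573458929506328375061315679171845852290158294152364606998566138674788542437607012108590681290039201854413661647678221215878256740644142704492826533379271178812567475734100749217218550151073389438700294400309340617321998747341553871339115878427482513263866732641709495414604747141407345988080972595200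
    >>> (64 * a.v.val + 4 * b.v.val))⟩⟩
instance : Zero K16 := ⟨⟨0⟩⟩
instance : One K16 := ⟨⟨1⟩⟩
instance : Neg K16 := ⟨id⟩

lemma forall_iff {p : K16 → Prop} : (∀ x, p x) ↔ ∀ i : Fin 16, p ⟨i⟩ :=
  ⟨fun h i => h ⟨i⟩, fun h x => h x.v⟩

instance : CommRing K16 where
  add_assoc := by simp only [forall_iff]; decide +kernel
  zero_add := by simp only [forall_iff]; decide +kernel
  add_zero := by simp only [forall_iff]; decide +kernel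
  add_comm := by simp only [forall_iff]; decide +kernel
  left_distrib := by simp only [forall_iff]; decide +kernel
  right_distrib := by simp only [forall_iff]; decide +kernel
  zero_mul := by simp only [forall_iff]; decide +kernel
  mul_zero := by simp only [forall_iff]; decide +kernel
  mul_assoc := by simp only [forall_iff]; decide +kernel
  one_mul := by simp only [forall_iff]; decide +kernel
  mul_one := by simp only [forall_iff]; decide +kernel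
  neg_add_cancel := by simp only [forall_iff]; decide +kernel
  mul_comm := by simp only [forall_iff]; decide +kernel
  nsmul := nsmulRec
  zsmul := zsmulRec

lemma exists_inv : ∀ a : K16, a ≠ 0 → ∃ b, a * b = 1 := by
  simp only [forall_iff]
  intro i
  suffices h : ∀ i : Fin 16, (⟨i⟩ : K16) ≠ 0 → ∃ b : Fin 16, (⟨i⟩ : K16) * ⟨b⟩ = 1 by
    intro hi
    obtain ⟨b, hb⟩ := h i hi
    exact ⟨⟨b⟩, hb⟩
  decide +kernel

end K16

/-- Points of the Lunelli-Sce hyperoval in homogeneous coordinates. -/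
def ptx : Fin 18 → K16 := ![⟨1⟩, ⟨1⟩, ⟨1⟩, ⟨1⟩, ⟨1⟩, ⟨1⟩, ⟨1⟩, ⟨1⟩, ⟨1⟩, ⟨1⟩, ⟨1⟩, ⟨1⟩, ⟨1⟩, ⟨1⟩, ⟨1⟩, ⟨1⟩, ⟨0⟩, ⟨0⟩]
def pty : Fin 18 → K16 := ![⟨0⟩, ⟨1⟩, ⟨2⟩, ⟨3⟩, ⟨4⟩, ⟨5⟩, ⟨6⟩, ⟨7⟩, ⟨8⟩, ⟨9⟩, ⟨10⟩, ⟨11⟩, ⟨12⟩, ⟨13⟩, ⟨14⟩, ⟨15⟩, ⟨1⟩, ⟨0⟩]
def ptz : Fin 18 → K16 := ![⟨0⟩, ⟨1⟩, ⟨4⟩, ⟨5⟩, ⟨7⟩, ⟨6⟩, ⟨2⟩, ⟨3⟩, ⟨15⟩, ⟨14⟩, ⟨8⟩, ⟨9⟩, ⟨13⟩, ⟨12⟩, ⟨11⟩, ⟨10⟩, ⟨0⟩, ⟨1⟩]
def pt (j : Fin 18) : Fin 3 → K16 := ![ptx j, pty j, ptz j]

/-- Multiplication by `x` in the basis `1, g`. -/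
def rhoFun (x : K16) : Matrix (Fin 2) (Fin 2) K4 :=
  Matrix.of fun c d =>
    let y : K16 := x * (if d = 0 then ⟨1⟩ else ⟨4⟩)
    if c = 0 then ⟨Fin.ofNat 4 y.v.val⟩ else ⟨Fin.ofNat 4 (y.v.val / 4)⟩

lemma rho_one : rhoFun 1 = 1 := by decide +kernel
lemma rho_zero : rhoFun 0 = 0 := by decide +kernel
lemma rho_mul : ∀ x y : K16, rhoFun (x * y) = rhoFun x * rhoFun y := by
  simp only [K16.forall_iff]; decide +kernel
lemma rho_add : ∀ x y : K16, rhoFun (x + y) = rhoFun x + rhoFun y := by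
  simp only [K16.forall_iff]; decide +kernel

def rho : K16 →+* Matrix (Fin 2) (Fin 2) K4 where
  toFun := rhoFun
  map_one' := rho_one
  map_mul' := rho_mul
  map_zero' := rho_zero
  map_add' := rho_add

/-- Node bases. -/
def cm : Fin 18 → Matrix (Fin 2) (Fin 2) K4 := ![!![⟨0⟩, ⟨1⟩; ⟨1⟩, ⟨0⟩], !![⟨1⟩, ⟨1⟩; ⟨1⟩, ⟨0⟩], !![⟨0⟩, ⟨1⟩; ⟨1⟩, ⟨2⟩], !![⟨1⟩, ⟨1⟩; ⟨3⟩, ⟨1⟩], !![⟨1⟩, ⟨1⟩; ⟨1⟩, ⟨0⟩], !![⟨1⟩, ⟨1⟩; ⟨1⟩, ⟨3⟩], !![⟨1⟩, ⟨1⟩; ⟨0⟩, ⟨1⟩], !![⟨1⟩, ⟨1⟩; ⟨0⟩, ⟨3⟩], !![⟨1⟩, ⟨1⟩; ⟨3⟩, ⟨2⟩], !![⟨1⟩, ⟨1⟩; ⟨1⟩, ⟨0⟩], !![⟨1⟩, ⟨1⟩; ⟨1⟩, ⟨0⟩], !![⟨1⟩, ⟨1⟩; ⟨1⟩, ⟨0⟩], !![⟨1⟩, ⟨1⟩; ⟨1⟩, ⟨0⟩], !![⟨1⟩, ⟨1⟩; ⟨2⟩, ⟨3⟩], !![⟨1⟩, ⟨1⟩; ⟨3⟩, ⟨2⟩], !![⟨1⟩, ⟨1⟩; ⟨2⟩, ⟨0⟩], !![⟨1⟩, ⟨0⟩; ⟨1⟩, ⟨1⟩], !![⟨1⟩, ⟨1⟩; ⟨3⟩, ⟨0⟩]]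

/-- Repair matrices. -/
def mt : Fin 3 → Fin 2 → Fin 3 → Fin 2 → K4 := ![![![![⟨0⟩, ⟨1⟩], ![⟨0⟩, ⟨0⟩], ![⟨0⟩, ⟨1⟩]], ![![⟨1⟩, ⟨1⟩], ![⟨1⟩, ⟨1⟩], ![⟨1⟩, ⟨1⟩]]], ![![![⟨0⟩, ⟨1⟩], ![⟨0⟩, ⟨0⟩], ![⟨0⟩, ⟨3⟩]], ![![⟨1⟩, ⟨0⟩], ![⟨2⟩, ⟨0⟩], ![⟨3⟩, ⟨0⟩]]], ![![![⟨0⟩, ⟨0⟩], ![⟨0⟩, ⟨1⟩], ![⟨3⟩, ⟨1⟩]], ![![⟨1⟩, ⟨0⟩], ![⟨3⟩, ⟨0⟩], ![⟨3⟩, ⟨1⟩]]]]
def ch : Fin 18 → Fin 3 := ![0, 2, 2, 0, 0, 0, 2, 1, 2, 0, 0, 1, 1, 2, 0, 1, 2, 0]
def M0 (i : Fin 18) : Matrix (Fin 2) (Fin 3 × Fin 2) K4 := Matrix.of fun m a => mt (ch i) m a.1 a.2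

/-- The blocks over `K4`. -/
def H0 (j : Fin 18) : Matrix (Fin 3 × Fin 2) (Fin 2) K4 :=
  Matrix.of fun a d => (rhoFun (pt j a.1) * cm j) a.2 d

def det3 (i j k : Fin 18) : K16 :=
  ptx i * (pty j * ptz k + ptz j * pty k) + pty i * (ptx j * ptz k + ptz j * ptx k)
    + ptz i * (ptx j * pty k + pty j * ptx k)

lemma det3_ne : ∀ i j k : Fin 18, i ≠ j → i ≠ k → j ≠ k → det3 i j k ≠ 0 := by
  decide +kernel

def mh (i j : Fin 18) : Matrix (Fin 2) (Fin 2) K4 := M0 i * H0 j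

lemma mh_self : ∀ i, mh i i 0 0 * mh i i 1 1 - mh i i 0 1 * mh i i 1 0 ≠ 0 := by
  decide +kernel

/-- number of nonzero columns -/
lemma mh_cols : ∀ i : Fin 18, ∑ j ∈ Finset.univ.erase i,
    (Finset.univ.filter fun c : Fin 2 => ∃ a, mh i j a c ≠ 0).card = 24 := by
  decide +kernel

/-- The matrix of the three chosen points. -/
def ptMat (e : Fin 3 → Fin 18) : Matrix (Fin 3) (Fin 3) K16 :=
  Matrix.of fun a b => pt (e b) a

lemma isUnit_ptMat (e : Fin 3 → Fin 18) (he : Function.Injective e) : IsUnit (ptMat e) := by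
  rw [Matrix.isUnit_iff_isUnit_det]
  have hd : (ptMat e).det = det3 (e 0) (e 1) (e 2) := by
    rw [Matrix.det_fin_three]
    have hneg : ∀ x y : K16, x - y = x + y := by
      intro x y
      have : -y = y := rfl
      rw [sub_eq_add_neg, this]
    simp only [hneg, ptMat, Matrix.of_apply, pt, det3]
    simp
    ring
  rw [hd]
  obtain ⟨b, hb⟩ := K16.exists_inv _ (det3_ne (e 0) (e 1) (e 2)
    (he.ne (by decide)) (he.ne (by decide)) (he.ne (by decide)))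
  exact IsUnit.of_mul_eq_one b hb

lemma cm_det : ∀ j : Fin 18, cm j 0 0 * cm j 1 1 - cm j 0 1 * cm j 1 0 ≠ 0 := by
  decide +kernel

lemma cm_unit (j : Fin 18) : IsUnit (cm j) := by
  rw [Matrix.isUnit_iff_isUnit_det, Matrix.det_fin_two]
  obtain ⟨b, hb⟩ := K4.exists_inv _ (cm_det j)
  exact IsUnit.of_mul_eq_one b hb

lemma isUnit_block (e : Fin 3 → Fin 18) (he : Function.Injective e) :
    IsUnit (Matrix.of fun (a b : Fin 3 × Fin 2) => H0 (e b.1) a b.2) := by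
  have h1 : IsUnit (rho.mapMatrix (ptMat e)) := (isUnit_ptMat e he).map _
  have h2 : IsUnit (Matrix.diagonal fun b : Fin 3 => cm (e b)) := by
    choose u hu using fun b : Fin 3 => (cm_unit (e b))
    refine ⟨⟨Matrix.diagonal fun b => (u b : Matrix (Fin 2) (Fin 2) K4),
      Matrix.diagonal fun b => ((u b)⁻¹ : (Matrix (Fin 2) (Fin 2) K4)ˣ), ?_, ?_⟩, ?_⟩
    · rw [Matrix.diagonal_mul_diagonal]
      simp
    · rw [Matrix.diagonal_mul_diagonal]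
      simp
    · simp [hu]
  have h3 := (h1.mul h2).map (Matrix.compRingEquiv (Fin 3) (Fin 2) K4)
  convert h3 using 1
  ext ⟨a, c⟩ ⟨b, d⟩
  simp only [Matrix.of_apply, H0, Matrix.compRingEquiv_apply, Matrix.comp_apply,
    Matrix.mul_diagonal, RingHom.mapMatrix_apply, Matrix.map_apply, ptMat]
  rfl

lemma rdata4 : RData K4 (Fin 18) 24 H0 where
  mds := isUnit_block
  rep := fun i => by
    refine ⟨M0 i, ?_, ?_⟩
    · rw [Matrix.isUnit_iff_isUnit_det, Matrix.det_fin_two]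
      obtain ⟨w, hw⟩ := K4.exists_inv _ (mh_self i)
      exact IsUnit.of_mul_eq_one w hw
    · rw [← mh_cols i]
      refine Finset.sum_le_sum fun j _ => ?_
      unfold nz
      refine Finset.card_le_card fun c hc => ?_
      simp only [Finset.mem_filter] at hc ⊢
      exact hc

lemma exists_hom_of_card (K F : Type*) [Field K] [Fintype K] [Field F] [Fintype F]
    (h : Fintype.card K = Fintype.card F) : ∃ f : K →+* F, Function.Injective f :=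
  ⟨(FiniteField.ringEquivOfCardEq h : K ≃+* F), (FiniteField.ringEquivOfCardEq h).injective⟩

lemma exists_hom4 (F : Type*) [Field F] [Fintype F] (hF : Fintype.card F = 4) :
    ∃ f : K4 →+* F, Function.Injective f := by
  have h : Fintype.card K4 = Fintype.card F := by rw [hF]; decide
  exact @exists_hom_of_card K4 F K4.fieldK4 _ _ _ h

theorem four {F : Type*} [Field F] [Fintype F] (hF : Fintype.card F = 4) :
    ∃ n, 3 < n ∧ ∃ H : Fin n → Matrix (Fin 3 × Fin 2) (Fin 2) F, Attained n H := by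
  obtain ⟨f, hf⟩ := exists_hom4 F hF
  refine ⟨Fintype.card (Fin 18), by simp, (rdata4.map f hf).attained ?_⟩
  rw [hF]
  simp

end Four

end Pool.Agent.Lib_MP_e76747
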