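import Pool.Agent.Lib_MP_e76747.Crit

/-! # Field reduction from a quadratic algebra -/

namespace Pool.Agent.Lib_MP_e76747

open Matrix

section geo

variable {K : Type*} [CommRing K] {a b : K}

/-- The matrix of multiplication by `x` in the basis `1, ω`. -/
def rho : QuadraticAlgebra K a b →+* Matrix (Fin 2) (Fin 2) K where
  toFun x := !![x.re, a * x.im; x.im, x.re + b * x.im]
  map_one' := by
    ext i j
    fin_cases i <;> fin_cases j <;> simp [QuadraticAlgebra.re_one, QuadraticAlgebra.im_one]
  map_zero' := by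
    ext i j
    fin_cases i <;> fin_cases j <;> simp
  map_add' x y := by
    ext i j
    fin_cases i <;> fin_cases j <;> simp <;> ring
  map_mul' x y := by
    ext i j
    fin_cases i <;> fin_cases j <;> simp [Matrix.mul_apply, Fin.sum_univ_two] <;> ring

lemma rho_apply (x : QuadraticAlgebra K a b) :
    rho x = !![x.re, a * x.im; x.im, x.re + b * x.im] := rfl

/-- The block of a point. -/
def blk (X : Fin 3 → QuadraticAlgebra K a b) : Matrix (Fin 3 × Fin 2) (Fin 2) K :=
  Matrix.of fun p d => rho (X p.1) p.2 d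

lemma isUnit_blk {ι : Type*} (X : ι → Fin 3 → QuadraticAlgebra K a b) (e : Fin 3 → ι)
    (h : IsUnit (Matrix.of fun p c => X (e c) p : Matrix (Fin 3) (Fin 3) _).det) :
    IsUnit (Matrix.of fun (p q : Fin 3 × Fin 2) => blk (X (e q.1)) p q.2) := by
  rw [← Matrix.isUnit_iff_isUnit_det] at h
  have h1 := h.map (RingHom.mapMatrix (rho (a := a) (b := b)))
  have h2 := h1.map (Matrix.compRingEquiv (Fin 3) (Fin 2) K)
  exact h2

/-- The repair matrix of the map `(x, y, z) ↦ u y + v star z`. -/
def rm (b : K) (u v : K) : Matrix (Fin 2) (Fin 3 × Fin 2) K :=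
  Matrix.of fun c p => if p.1 = 1 then u * (1 : Matrix (Fin 2) (Fin 2) K) c p.2
    else if p.1 = 2 then v * (!![1, b; 0, -1] : Matrix (Fin 2) (Fin 2) K) c p.2 else 0

lemma rm_mul_blk (u v : K) (X : Fin 3 → QuadraticAlgebra K a b) :
    rm b u v * blk X =
      !![u * (X 1).re + v * ((X 2).re + b * (X 2).im),
          u * (a * (X 1).im) + v * (a * (X 2).im + b * ((X 2).re + b * (X 2).im));
        u * (X 1).im - v * (X 2).im,
          u * ((X 1).re + b * (X 1).im) - v * ((X 2).re + b * (X 2).im)] := by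
  ext i j
  fin_cases i <;> fin_cases j <;>
  simp [Matrix.mul_apply, Fintype.sum_prod_type, Fin.sum_univ_three, Fin.sum_univ_two, rm, blk,
    rho_apply] <;> ring

lemma det_rm_mul_blk (u v : K) (X : Fin 3 → QuadraticAlgebra K a b) :
    (rm b u v * blk X).det =
      u ^ 2 * QuadraticAlgebra.norm (X 1) - v ^ 2 * QuadraticAlgebra.norm (X 2) := by
  rw [rm_mul_blk, Matrix.det_fin_two]
  simp [QuadraticAlgebra.norm_def]
  ring

lemma rm_col (u v : K) (X : Fin 3 → QuadraticAlgebra K a b)
    (h : QuadraticAlgebra.C u * X 1 + QuadraticAlgebra.C v * star (X 2) = 0) :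
    ∀ x, (rm b u v * blk X) x 0 = 0 := by
  have h1 := congrArg QuadraticAlgebra.re h
  have h2 := congrArg QuadraticAlgebra.im h
  simp at h1 h2
  intro x
  rw [rm_mul_blk]
  fin_cases x
  · simp
    linear_combination h1
  · simp
    linear_combination h2

end geo

end Pool.Agent.Lib_MP_e76747
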